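import Pool.Agent.X65.Loc.Dual

/-!
Posets on initial segments of the natural numbers, and their windows.
-/

set_option autoImplicit false
set_option linter.unusedSectionVars false

open Finset

namespace Pool.Agent.X65.Loc

open Pool.Agent.H13R3.WB Pool.Agent.X65.Pos

/-- `r` is a strict order on the numbers below `n`, compatible with the natural order, such that
numbers at distance at least `M` are comparable. -/
structure Good (M n : ℕ) (r : ℕ → ℕ → Prop) : Prop where
  lt : ∀ i j, r i j → i < j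
  trans : ∀ i j k, k < n → r i j → r j k → r i k
  far : ∀ i j, j < n → i + M ≤ j → r i j

/-- the poset given by the relation -/
def Wd {M n : ℕ} {r : ℕ → ℕ → Prop} (_h : Good M n r) : Type := Fin n

section Wd

variable {M n : ℕ} {r : ℕ → ℕ → Prop}

/-- the number of an element -/
def Wd.val {h : Good M n r} (x : Wd h) : ℕ := Fin.val (show Fin n from x)

/-- the element with a given number -/
def Wd.mk (h : Good M n r) (i : ℕ) (hi : i < n) : Wd h := (⟨i, hi⟩ : Fin n)

@[simp] lemma Wd.val_mk (h : Good M n r) (i : ℕ) (hi : i < n) : (Wd.mk h i hi).val = i := rfl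

lemma Wd.val_lt {h : Good M n r} (x : Wd h) : x.val < n := Fin.isLt (show Fin n from x)

lemma Wd.ext {h : Good M n r} {x y : Wd h} (hxy : x.val = y.val) : x = y :=
  Fin.ext (show Fin.val (show Fin n from x) = Fin.val (show Fin n from y) from hxy)

lemma Wd.mk_val {h : Good M n r} (x : Wd h) : Wd.mk h x.val x.val_lt = x := Wd.ext rfl

instance (h : Good M n r) : Fintype (Wd h) := inferInstanceAs (Fintype (Fin n))

lemma Wd.card (h : Good M n r) : Fintype.card (Wd h) = n := Fintype.card_fin n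

instance (h : Good M n r) : PartialOrder (Wd h) where
  le x y := x = y ∨ r x.val y.val
  le_refl x := Or.inl rfl
  le_trans x y z := by
    rintro (rfl | h1) (rfl | h2)
    · exact Or.inl rfl
    · exact Or.inr h2
    · exact Or.inr h1
    · exact Or.inr (h.trans _ _ _ z.val_lt h1 h2)
  le_antisymm x y := by
    rintro (rfl | h1) (h2 | h2)
    · rfl
    · rfl
    · exact h2.symm
    · have := h.lt _ _ h1
      have := h.lt _ _ h2
      omega

lemma Wd.le_iff {h : Good M n r} {x y : Wd h} : x ≤ y ↔ x = y ∨ r x.val y.val := Iff.rfl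

lemma Wd.le_val {h : Good M n r} {x y : Wd h} (hxy : x ≤ y) : x.val ≤ y.val := by
  rcases hxy with rfl | h1
  · exact le_rfl
  · exact (h.lt _ _ h1).le

lemma Wd.le_of_far {h : Good M n r} {x y : Wd h} (hxy : x.val + M ≤ y.val) : x ≤ y :=
  Or.inr (h.far _ _ y.val_lt hxy)

lemma Wd.inc_le {h : Good M n r} (x : Wd h) : inc x ≤ 2 * M := by
  unfold inc
  have h1 : Nat.card {y : Wd h // ¬ x ≤ y ∧ ¬ y ≤ x} ≤
      Nat.card {i : ℕ // i ∈ Finset.Ico (x.val - M) (x.val + M)} := by
    refine Nat.card_le_card_of_injective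
      (fun y => ⟨y.1.val, Finset.mem_Ico.2 ⟨?_, ?_⟩⟩) ?_
    · by_contra hc
      exact y.2.2 (Wd.le_of_far (by omega))
    · by_contra hc
      exact y.2.1 (Wd.le_of_far (by omega))
    · intro y z hyz
      exact Subtype.ext (Wd.ext (congrArg Subtype.val hyz))
  have h2 : Nat.card {i : ℕ // i ∈ Finset.Ico (x.val - M) (x.val + M)} ≤ 2 * M := by
    rw [Nat.card_eq_fintype_card, Fintype.card_coe, Nat.card_Ico]
    omega
  exact h1.trans h2

lemma Wd.card_le_ge {h : Good M n r} (y : Wd h) : y.val + 1 ≤ M + Nat.card {w : Wd h // w ≤ y} := by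
  have h1 : Nat.card (Fin (y.val + 1 - M)) ≤ Nat.card {w : Wd h // w ≤ y} := by
    refine Nat.card_le_card_of_injective
      (fun i => ⟨Wd.mk h i.1 (by have := i.2; have := y.val_lt; omega), ?_⟩) ?_
    · refine Wd.le_of_far ?_
      have := i.2
      simp only [Wd.val_mk]
      omega
    · intro i j hij
      have := congrArg (fun w => Wd.val (Subtype.val w)) hij
      exact Fin.ext this
  rw [Nat.card_eq_fintype_card, Fintype.card_fin] at h1
  omega

lemma Wd.card_ge_ge {h : Good M n r} (x : Wd h) : n ≤ x.val + M + Nat.card {w : Wd h // x ≤ w} := by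
  have h1 : Nat.card (Fin (n - (x.val + M))) ≤ Nat.card {w : Wd h // x ≤ w} := by
    refine Nat.card_le_card_of_injective
      (fun i => ⟨Wd.mk h (x.val + M + i.1) (by have := i.2; omega), ?_⟩) ?_
    · refine Wd.le_of_far ?_
      simp only [Wd.val_mk]
      omega
    · intro i j hij
      have := congrArg (fun w => Wd.val (Subtype.val w)) hij
      simp only [Wd.val_mk] at this
      exact Fin.ext (by omega)
  rw [Nat.card_eq_fintype_card, Fintype.card_fin] at h1
  omega

end Wd

/-- the window starting at `a` -/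
def win (a : ℕ) (r : ℕ → ℕ → Prop) : ℕ → ℕ → Prop := fun i j => r (a + i) (a + j)

lemma Good.win {M n : ℕ} {r : ℕ → ℕ → Prop} (h : Good M n r) {a L : ℕ} (haL : a + L ≤ n) :
    Good M L (win a r) where
  lt i j hij := by
    have := h.lt _ _ hij
    omega
  trans i j k hk h1 h2 := h.trans _ _ _ (by omega) h1 h2
  far i j hj hij := h.far _ _ (by omega) (by omega)

lemma Good.mono {M n : ℕ} {r : ℕ → ℕ → Prop} (h : Good M n r) {L : ℕ} (hL : L ≤ n) :
    Good M L r where
  lt := h.lt
  trans i j k hk h1 h2 := h.trans _ _ _ (by omega) h1 h2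
  far i j hj hij := h.far _ _ (by omega) hij

/-- the window as a part of the poset -/
def winEmb {M n : ℕ} {r : ℕ → ℕ → Prop} (h : Good M n r) {a L : ℕ} (haL : a + L ≤ n) :
    Wd (h.win haL) ↪o Wd h where
  toFun x := Wd.mk h (a + x.val) (by have := x.val_lt; omega)
  inj' := by
    intro x y hxy
    have h1 := congrArg Wd.val hxy
    simp only [Wd.val_mk] at h1
    exact Wd.ext (by omega)
  map_rel_iff' := by
    intro x y
    constructor
    · rintro (h1 | h1)
      · have h2 := congrArg Wd.val h1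
        have h3 : a + x.val = a + y.val := h2
        exact Or.inl (Wd.ext (by omega))
      · exact Or.inr h1
    · rintro (h1 | h1)
      · exact Or.inl (by rw [h1])
      · exact Or.inr h1

/-- the initial part of the poset -/
def initEmb {M n : ℕ} {r : ℕ → ℕ → Prop} (h : Good M n r) {L : ℕ} (hL : L ≤ n) :
    Wd (h.mono hL) ↪o Wd h where
  toFun x := Wd.mk h x.val (by have := x.val_lt; omega)
  inj' := by
    intro x y hxy
    have h1 := congrArg Wd.val hxy
    exact Wd.ext h1
  map_rel_iff' := by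
    intro x y
    constructor
    · rintro (h1 | h1)
      · have h2 := congrArg Wd.val h1
        exact Or.inl (Wd.ext h2)
      · exact Or.inr h1
    · rintro (h1 | h1)
      · exact Or.inl (by rw [h1])
      · exact Or.inr h1

/-- equal relations give isomorphic posets -/
def sameIso {M M' n : ℕ} {r s : ℕ → ℕ → Prop} (h : Good M n r) (h' : Good M' n s)
    (hrs : ∀ i j, i < j → j < n → (r i j ↔ s i j)) : Wd h ≃o Wd h' where
  toFun x := Wd.mk h' x.val x.val_lt
  invFun x := Wd.mk h x.val x.val_lt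
  left_inv x := Wd.ext rfl
  right_inv x := Wd.ext rfl
  map_rel_iff' := by
    intro x y
    have key : r x.val y.val ↔ s x.val y.val := by
      constructor
      · intro h1
        exact (hrs _ _ (h.lt _ _ h1) y.val_lt).1 h1
      · intro h1
        exact (hrs _ _ (h'.lt _ _ h1) y.val_lt).2 h1
    constructor
    · rintro (h1 | h1)
      · have h2 := congrArg Wd.val h1
        exact Or.inl (Wd.ext h2)
      · exact Or.inr (key.2 h1)
    · rintro (h1 | h1)
      · exact Or.inl (by rw [h1])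
      · exact Or.inr (key.1 h1)

/-- the decay factor -/
noncomputable def dec (M : ℕ) : ℝ := 1 - 1 / ((2 * M).factorial : ℝ)

lemma dec_nonneg (M : ℕ) : 0 ≤ dec M := by
  have : (1 : ℝ) ≤ ((2 * M).factorial : ℝ) := by exact_mod_cast Nat.factorial_pos _
  unfold dec
  rw [sub_nonneg, div_le_one (by linarith)]
  exact this

/-- cutting off an initial part -/
lemma loc_suffix {M n : ℕ} {r : ℕ → ℕ → Prop} (h : Good M n r) {a : ℕ} {L : ℕ} (haL : a + L = n)
    (k i j : ℕ) (hi : i < L) (hj : j < L) (hc : a = 0 ∨ k * (2 * M) + M ≤ j) :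
    |prob (Wd h) (Wd.mk h (a + i) (by omega)) (Wd.mk h (a + j) (by omega)) -
      prob (Wd (h.win haL.le)) (Wd.mk _ i hi) (Wd.mk _ j hj)| ≤ dec M ^ k := by
  rcases hc with rfl | hc
  · have hn : L = n := by omega
    subst hn
    have h1 := prob_iso (sameIso (h.win haL.le) h (fun i j _ _ => by
      unfold win
      rw [Nat.zero_add, Nat.zero_add])) (Wd.mk (h.win haL.le) i hi) (Wd.mk (h.win haL.le) j hj)
    have h2 : ∀ (t : ℕ) (ht : t < L), Wd.mk h (0 + t) (by omega) = sameIso (h.win haL.le) h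
        (fun i j _ _ => by unfold win; rw [Nat.zero_add, Nat.zero_add])
        (Wd.mk (h.win haL.le) t ht) := by
      intro t ht
      refine Wd.ext ?_
      show 0 + t = t
      omega
    rw [h2 i hi, h2 j hj, h1, sub_self, abs_zero]
    exact pow_nonneg (dec_nonneg M) k
  · refine loc_low (winEmb h haL.le) k Wd.inc_le ?_ (Wd.mk _ i hi) (Wd.mk _ j hj) ?_
    · intro q p hqp
      have h1 : a + q.val ≤ p.val := Wd.le_val hqp
      have h2 := p.val_lt
      refine ⟨Wd.mk _ (p.val - a) (by omega), Wd.ext ?_⟩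
      show a + (p.val - a) = p.val
      omega
    · rw [Wd.card, Wd.card]
      have h1 := Wd.card_le_ge (winEmb h haL.le (Wd.mk _ j hj))
      have h2 : (winEmb h haL.le (Wd.mk _ j hj)).val = a + j := rfl
      rw [h2] at h1
      omega

/-- cutting off a final part -/
lemma loc_prefix {M n : ℕ} {r : ℕ → ℕ → Prop} (h : Good M n r) {L : ℕ} (hL : L ≤ n)
    (k i j : ℕ) (hi : i < L) (hj : j < L) (hc : L = n ∨ i + (k * (2 * M) + M) < L) :
    |prob (Wd h) (Wd.mk h i (by omega)) (Wd.mk h j (by omega)) -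
      prob (Wd (h.mono hL)) (Wd.mk _ i hi) (Wd.mk _ j hj)| ≤ dec M ^ k := by
  rcases hc with rfl | hc
  · have h1 : prob (Wd h) (Wd.mk h i (by omega)) (Wd.mk h j (by omega)) =
      prob (Wd (h.mono hL)) (Wd.mk _ i hi) (Wd.mk _ j hj) := rfl
    rw [h1, sub_self, abs_zero]
    exact pow_nonneg (dec_nonneg M) k
  · refine loc_high (initEmb h hL) k Wd.inc_le ?_ (Wd.mk _ i hi) (Wd.mk _ j hj) ?_
    · intro q p hqp
      have h1 : p.val ≤ q.val := Wd.le_val hqp
      have h2 := q.val_lt
      exact ⟨Wd.mk _ p.val (by omega), Wd.ext rfl⟩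
    · rw [Wd.card, Wd.card]
      have h1 := Wd.card_ge_ge (initEmb h hL (Wd.mk _ i hi))
      have h2 : (initEmb h hL (Wd.mk _ i hi)).val = i := rfl
      rw [h2] at h1
      omega

/-- **Locality.** -/
theorem loc_win {M n : ℕ} {r : ℕ → ℕ → Prop} (h : Good M n r) {a L : ℕ} (haL : a + L ≤ n)
    (k i j : ℕ) (hi : i < L) (hj : j < L) (h1 : a = 0 ∨ k * (2 * M) + M ≤ j)
    (h2 : a + L = n ∨ i + (k * (2 * M) + M) < L) :
    |prob (Wd h) (Wd.mk h (a + i) (by omega)) (Wd.mk h (a + j) (by omega)) -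
      prob (Wd (h.win haL)) (Wd.mk _ i hi) (Wd.mk _ j hj)| ≤ 2 * dec M ^ k := by
  have ha : a + (n - a) = n := by omega
  have e1 := loc_suffix h ha k i j (by omega) (by omega) h1
  have e2 := loc_prefix (h.win ha.le) (L := L) (by omega) k i j hi hj
    (by rcases h2 with h2 | h2 <;> omega)
  have e3 : prob (Wd ((h.win ha.le).mono (show L ≤ n - a by omega))) (Wd.mk _ i hi)
      (Wd.mk _ j hj) = prob (Wd (h.win haL)) (Wd.mk _ i hi) (Wd.mk _ j hj) := rfl
  rw [e3] at e2
  have e4 := abs_sub_le (prob (Wd h) (Wd.mk h (a + i) (by omega)) (Wd.mk h (a + j) (by omega)))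
    (prob (Wd (h.win ha.le)) (Wd.mk _ i (by omega)) (Wd.mk _ j (by omega)))
    (prob (Wd (h.win haL)) (Wd.mk _ i hi) (Wd.mk _ j hj))
  linarith

/-- comparison of two posets with equal windows -/
theorem loc_cmp {M m n L : ℕ} {r s : ℕ → ℕ → Prop} (hP : Good M n r) (hQ : Good M m s)
    {a b : ℕ} (ha : a + L ≤ m) (hb : b + L ≤ n)
    (hsame : ∀ i j, i < j → j < L → (s (a + i) (a + j) ↔ r (b + i) (b + j)))
    (k i j : ℕ) (hi : i < L) (hj : j < L)
    (h1 : a = 0 ∨ k * (2 * M) + M ≤ j) (h2 : a + L = m ∨ i + (k * (2 * M) + M) < L)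
    (h3 : b = 0 ∨ k * (2 * M) + M ≤ j) (h4 : b + L = n ∨ i + (k * (2 * M) + M) < L) :
    |prob (Wd hQ) (Wd.mk hQ (a + i) (by omega)) (Wd.mk hQ (a + j) (by omega)) -
      prob (Wd hP) (Wd.mk hP (b + i) (by omega)) (Wd.mk hP (b + j) (by omega))| ≤
      4 * dec M ^ k := by
  have e1 := loc_win hQ ha k i j hi hj h1 h2
  have e2 := loc_win hP hb k i j hi hj h3 h4
  have e3 : prob (Wd (hQ.win ha)) (Wd.mk _ i hi) (Wd.mk _ j hj) =
      prob (Wd (hP.win hb)) (Wd.mk _ i hi) (Wd.mk _ j hj) :=
    (prob_iso (sameIso (hQ.win ha) (hP.win hb) hsame) (Wd.mk _ i hi) (Wd.mk _ j hj)).symm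
  rw [e3] at e1
  rw [abs_le] at *
  constructor <;> linarith [e1.1, e1.2, e2.1, e2.2]

end Pool.Agent.X65.Loc
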