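import Pool.Agent.X65.Loc.Surgery

/-!
Shortening does not change the balance constant much and keeps indecomposability.
-/

set_option autoImplicit false
set_option linter.unusedSectionVars false

open Finset

namespace Pool.Agent.X65.Loc

open Pool.Agent.H13R3.WB Pool.Agent.X65.Pos

section

variable {M m n L : ℕ} {r s : ℕ → ℕ → Prop}

lemma cmp_min (hP : Good M n r) (hQ : Good M m s) {a b : ℕ} (ha : a + L ≤ m) (hb : b + L ≤ n)
    (hsame : Same L a s b r) (k i j : ℕ) (hi : i < L) (hj : j < L)
    (h1 : a = 0 ∨ (k * (2 * M) + M ≤ i ∧ k * (2 * M) + M ≤ j))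
    (h2 : a + L = m ∨ (i + (k * (2 * M) + M) < L ∧ j + (k * (2 * M) + M) < L))
    (h3 : b = 0 ∨ (k * (2 * M) + M ≤ i ∧ k * (2 * M) + M ≤ j))
    (h4 : b + L = n ∨ (i + (k * (2 * M) + M) < L ∧ j + (k * (2 * M) + M) < L)) :
    min (prob (Wd hQ) (Wd.mk hQ (a + i) (by omega)) (Wd.mk hQ (a + j) (by omega)))
      (prob (Wd hQ) (Wd.mk hQ (a + j) (by omega)) (Wd.mk hQ (a + i) (by omega))) ≤
      balance (Wd hP) + 4 * dec M ^ k := by
  have e1 := loc_cmp hP hQ ha hb hsame k i j hi hj (h1.imp_right And.right)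
    (h2.imp_right And.left) (h3.imp_right And.right) (h4.imp_right And.left)
  have e2 := loc_cmp hP hQ ha hb hsame k j i hj hi (h1.imp_right And.left)
    (h2.imp_right And.right) (h3.imp_right And.left) (h4.imp_right And.right)
  have e3 := le_balance (Wd.mk hP (b + i) (by omega)) (Wd.mk hP (b + j) (by omega))
  rw [abs_le] at e1 e2
  rcases min_cases (prob (Wd hP) (Wd.mk hP (b + i) (by omega)) (Wd.mk hP (b + j) (by omega)))
    (prob (Wd hP) (Wd.mk hP (b + j) (by omega)) (Wd.mk hP (b + i) (by omega))) with h | h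
  · refine (min_le_left _ _).trans ?_
    linarith [e1.2]
  · refine (min_le_right _ _).trans ?_
    linarith [e2.2]

/-- **The balance constant after shortening.** -/
theorem sub_balance (hP : Good M n r) (hQ : Good M m s) (hsub : Sub L m s n r) (k : ℕ)
    (hL : 2 * (k * (2 * M) + M) + M ≤ L) :
    balance (Wd hQ) ≤ balance (Wd hP) + 4 * dec M ^ k := by
  have h0 : 0 ≤ balance (Wd hP) + 4 * dec M ^ k := by
    have h1 := balance_nonneg (P := Wd hP)
    have h2 := pow_nonneg (dec_nonneg M) k
    linarith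
  refine balance_le h0 fun x y => ?_
  set μ := k * (2 * M) + M with hμ
  have hm := hsub.hm
  have hn := hsub.hn
  have key : ∀ (a b : ℕ) (hax : a ≤ x.val) (hay : a ≤ y.val), a + L ≤ m → b + L ≤ n →
      Same L a s b r → x.val - a < L → y.val - a < L →
      (a = 0 ∨ (μ ≤ x.val - a ∧ μ ≤ y.val - a)) →
      (a + L = m ∨ (x.val - a + μ < L ∧ y.val - a + μ < L)) →
      (b = 0 ∨ (μ ≤ x.val - a ∧ μ ≤ y.val - a)) →
      (b + L = n ∨ (x.val - a + μ < L ∧ y.val - a + μ < L)) →
      min (prob (Wd hQ) x y) (prob (Wd hQ) y x) ≤ balance (Wd hP) + 4 * dec M ^ k := by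
    intro a b hax hay ha hb hsame hx hy h1 h2 h3 h4
    have h5 := cmp_min hP hQ ha hb hsame k _ _ hx hy h1 h2 h3 h4
    have e1 : Wd.mk hQ (a + (x.val - a)) (by omega) = x := by
      refine Wd.ext ?_
      show a + (x.val - a) = x.val
      omega
    have e2 : Wd.mk hQ (a + (y.val - a)) (by omega) = y := by
      refine Wd.ext ?_
      show a + (y.val - a) = y.val
      omega
    rw [e1, e2] at h5
    exact h5
  have hxm := x.val_lt
  have hym := y.val_lt
  by_cases hxy : x.val + M ≤ y.val
  · have h1 : prob (Wd hQ) y x = 0 := prob_eq_zero_of_le (Wd.le_of_far hxy)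
    exact (min_le_right _ _).trans (h1.le.trans h0)
  by_cases hyx : y.val + M ≤ x.val
  · have h1 : prob (Wd hQ) x y = 0 := prob_eq_zero_of_le (Wd.le_of_far hyx)
    exact (min_le_left _ _).trans (h1.le.trans h0)
  by_cases c1 : x.val + μ < L ∧ y.val + μ < L
  · exact key 0 0 (Nat.zero_le _) (Nat.zero_le _) (by omega) (by omega) hsub.first (by omega)
      (by omega) (Or.inl rfl) (Or.inr (by omega)) (Or.inl rfl) (Or.inr (by omega))
  by_cases c2 : m - L + μ ≤ x.val ∧ m - L + μ ≤ y.val
  · exact key (m - L) (n - L) (by omega) (by omega) (by omega) (by omega) hsub.last (by omega)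
      (by omega) (Or.inr (by omega)) (Or.inl (by omega)) (Or.inr (by omega)) (Or.inl (by omega))
  -- the middle
  have h1 : μ ≤ x.val := by omega
  have h2 : μ ≤ y.val := by omega
  rcases le_total x.val y.val with hle | hle
  · obtain ⟨b, hb, hsame⟩ := hsub.all (x.val - μ) (by omega)
    exact key (x.val - μ) b (by omega) (by omega) (by omega) hb hsame (by omega) (by omega)
      (Or.inr (by omega)) (Or.inr (by omega)) (Or.inr (by omega)) (Or.inr (by omega))
  · obtain ⟨b, hb, hsame⟩ := hsub.all (y.val - μ) (by omega)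
    exact key (y.val - μ) b (by omega) (by omega) (by omega) hb hsame (by omega) (by omega)
      (Or.inr (by omega)) (Or.inr (by omega)) (Or.inr (by omega)) (Or.inr (by omega))

/-- a cut of the poset -/
def Cut (n : ℕ) (r : ℕ → ℕ → Prop) (c : ℕ) : Prop :=
  0 < c ∧ c < n ∧ ∀ x y, x < c → c ≤ y → y < n → r x y

/-- Indecomposability is kept. -/
theorem sub_noCut (hP : Good M n r) (hsub : Sub L m s n r) (hM : 1 ≤ M)
    (hL : 2 * M ≤ L) (hcut : ∀ c, ¬ Cut n r c) (c : ℕ) : ¬ Cut m s c := by
  rintro ⟨hc0, hcm, hc⟩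
  have hm := hsub.hm
  have hn := hsub.hn
  -- transport of a cut through a window
  have key : ∀ a b : ℕ, a + L ≤ m → b + L ≤ n → Same L a s b r →
      (a ≤ c) → (c < a + L) → (a = 0 ∧ b = 0 ∨ a + M ≤ c) →
      (a + L = m ∧ b + L = n ∨ c + M ≤ a + L) → False := by
    intro a b ha hb hsame hac hcL h1 h2
    refine hcut (b + (c - a)) ⟨by omega, by omega, ?_⟩
    intro x y hx hy hyn
    by_cases hfar : x + M ≤ y
    · exact hP.far _ _ hyn hfar
    · have hxb : b ≤ x := by omega
      have hyb : y < b + L := by omega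
      have h3 := hsame (x - b) (y - b) (by omega) (by omega)
      have e1 : b + (x - b) = x := by omega
      have e2 : b + (y - b) = y := by omega
      rw [e1, e2] at h3
      exact h3.1 (hc _ _ (by omega) (by omega) (by omega))
  by_cases c1 : c < M
  · exact key 0 0 (by omega) (by omega) hsub.first (by omega) (by omega) (Or.inl ⟨rfl, rfl⟩)
      (Or.inr (by omega))
  by_cases c2 : m < c + M
  · exact key (m - L) (n - L) (by omega) (by omega) hsub.last (by omega) (by omega)
      (Or.inr (by omega)) (Or.inl (by omega))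
  by_cases c3 : c - M + L ≤ m
  · obtain ⟨b, hb, hsame⟩ := hsub.all (c - M) c3
    exact key (c - M) b c3 hb hsame (by omega) (by omega) (Or.inr (by omega)) (Or.inr (by omega))
  · exact key (m - L) (n - L) (by omega) (by omega) hsub.last (by omega) (by omega)
      (Or.inr (by omega)) (Or.inl (by omega))

end

end Pool.Agent.X65.Loc
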