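import Pool.Agent.X65.Loc.Compare

/-!
Indecomposable posets, natural labellings, the class D.
-/

set_option autoImplicit false
set_option linter.unusedSectionVars false

open Finset

namespace Pool.Agent.X65.Loc

open Pool.Agent.H13R3.WB Pool.Agent.X65.Pos

/-- `P` is not a direct sum of two nonempty posets. -/
def Indec (P : Type) [PartialOrder P] : Prop :=
  ¬ ∃ A : Set P, A.Nonempty ∧ Aᶜ.Nonempty ∧ ∀ a ∈ A, ∀ b ∈ Aᶜ, a < b

section Split

variable {P : Type} [PartialOrder P]

/-- the direct sum of the two parts of a cut -/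
noncomputable def splitIso (A : Set P) (hA : ∀ a ∈ A, ∀ b ∈ Aᶜ, a < b) :
    P ≃o ({x // x ∈ A} ⊕ₗ {x // x ∈ Aᶜ}) := by
  classical
  refine OrderIso.symm (RelIso.ofSurjective
    (⟨⟨fun x => Sum.elim Subtype.val Subtype.val (ofLex x), ?_⟩, ?_⟩ :
      ({x // x ∈ A} ⊕ₗ {x // x ∈ Aᶜ}) ↪o P) ?_)
  · rintro (x | x) (y | y) h
    · exact congrArg (fun z => toLex (Sum.inl z)) (Subtype.ext h)
    · exact absurd (show x.1 ∈ Aᶜ by rw [show x.1 = y.1 from h]; exact y.2) (fun h' => h' x.2)
    · exact absurd (show y.1 ∈ Aᶜ by rw [← show x.1 = y.1 from h]; exact x.2) (fun h' => h' y.2)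
    · exact congrArg (fun z => toLex (Sum.inr z)) (Subtype.ext h)
  · rintro (x | x) (y | y)
    · exact ⟨fun h => Sum.Lex.inl h, fun h => by
        rcases h with h | h
        exact h⟩
    · exact ⟨fun _ => Sum.Lex.sep _ _, fun _ => (hA x.1 x.2 y.1 y.2).le⟩
    · refine ⟨fun h => ?_, fun h => ?_⟩
      · exact absurd (lt_of_lt_of_le (hA y.1 y.2 x.1 x.2) h) (lt_irrefl _)
      · rcases h
    · exact ⟨fun h => Sum.Lex.inr h, fun h => by
        rcases h with h | h
        exact h⟩
  · intro x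
    by_cases hx : x ∈ A
    · exact ⟨toLex (Sum.inl ⟨x, hx⟩), rfl⟩
    · exact ⟨toLex (Sum.inr ⟨x, hx⟩), rfl⟩

end Split

/-- every poset outside a class closed under direct sums has an indecomposable summand outside -/
theorem exists_indec (G : ∀ (P : Type) [PartialOrder P], Prop)
    (hG : ∀ (P : Type) [PartialOrder P] (A : Set P), (∀ a ∈ A, ∀ b ∈ Aᶜ, a < b) →
      A.Nonempty → Aᶜ.Nonempty → G {x // x ∈ A} → G {x // x ∈ Aᶜ} → G P) (n : ℕ) :
    ∀ (P : Type) [Fintype P] [PartialOrder P] [Nonempty P], Nat.card P = n → ¬ G P →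
      ∃ (S : Type) (_ : Fintype S) (_ : PartialOrder S), Nonempty S ∧ ¬ G S ∧ Indec S ∧
        balance S ≤ balance P := by
  classical
  induction n using Nat.strong_induction_on with
  | _ n ih =>
    intro P _ _ _ hn hP
    by_cases hI : Indec P
    · exact ⟨P, inferInstance, inferInstance, inferInstance, hP, hI, le_rfl⟩
    · unfold Indec at hI
      rw [not_not] at hI
      obtain ⟨A, hA1, hA2, hA⟩ := hI
      have hor : ¬ G {x // x ∈ A} ∨ ¬ G {x // x ∈ Aᶜ} := by
        by_contra hcon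
        rw [not_or, not_not, not_not] at hcon
        exact hP (hG P A hA hA1 hA2 hcon.1 hcon.2)
      have hc : ∀ B : Set P, Bᶜ.Nonempty → Nat.card {x // x ∈ B} < n := by
        intro B ⟨b, hb⟩
        rw [← hn, Nat.card_eq_fintype_card, Nat.card_eq_fintype_card]
        exact Fintype.card_subtype_lt hb
      rcases hor with h | h
      · have : Nonempty {x // x ∈ A} := ⟨⟨hA1.some, hA1.some_mem⟩⟩
        obtain ⟨S, i1, i2, h1, h2, h3, h4⟩ := ih _ (hc A hA2) {x // x ∈ A} rfl h
        refine ⟨S, i1, i2, h1, h2, h3, h4.trans ?_⟩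
        refine balance_lower (OrderEmbedding.subtype (fun x => x ∈ A)) ?_
        intro q p hp
        refine hA q.1 q.2 p ?_
        intro hpA
        exact hp ⟨⟨p, hpA⟩, rfl⟩
      · have : Nonempty {x // x ∈ Aᶜ} := ⟨⟨hA2.some, hA2.some_mem⟩⟩
        obtain ⟨S, i1, i2, h1, h2, h3, h4⟩ := ih _ (hc Aᶜ (by rw [compl_compl]; exact hA1))
          {x // x ∈ Aᶜ} rfl h
        refine ⟨S, i1, i2, h1, h2, h3, h4.trans ?_⟩
        refine balance_upper (OrderEmbedding.subtype (fun x => x ∈ Aᶜ)) ?_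
        intro q p hp
        refine hA p ?_ q.1 q.2
        by_contra hpA
        exact hp ⟨⟨p, hpA⟩, rfl⟩

section Label

variable {P : Type} [Fintype P] [PartialOrder P]

/-- the relation of a labelled poset -/
def lab (f : P ≃ Fin (Fintype.card P)) : ℕ → ℕ → Prop := fun i j =>
  ∃ (hi : i < Fintype.card P) (hj : j < Fintype.card P), f.symm ⟨i, hi⟩ < f.symm ⟨j, hj⟩

lemma lab_good {K : ℕ} (hK1 : 1 ≤ K) (hK : ∀ x : P, inc x ≤ K)
    (f : P ≃ Fin (Fintype.card P)) (hf : Monotone f) :
    Good (2 * K) (Fintype.card P) (lab f) := by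
  classical
  have hsm : StrictMono f := hf.strictMono_of_injective f.injective
  refine ⟨?_, ?_, ?_⟩
  · rintro i j ⟨hi, hj, h⟩
    have h1 := hsm h
    simpa using h1
  · rintro i j k hk ⟨hi, hj, h⟩ ⟨hj', hk', h'⟩
    exact ⟨hi, hk', h.trans h'⟩
  · intro i j hj hij
    refine ⟨by omega, hj, ?_⟩
    by_contra hcon
    set a := f.symm ⟨i, by omega⟩ with ha
    set b := f.symm ⟨j, hj⟩ with hb
    have hfa : f a = ⟨i, by omega⟩ := f.apply_symm_apply _
    have hfb : f b = ⟨j, hj⟩ := f.apply_symm_apply _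
    have hfav : (f a : ℕ) = i := by rw [hfa]
    have hfbv : (f b : ℕ) = j := by rw [hfb]
    have hab : ¬ a ≤ b := by
      intro h
      rcases h.lt_or_eq with h | h
      · exact hcon h
      · have h1 : (f a : ℕ) = f b := by rw [h]
        omega
    have hba : ¬ b ≤ a := by
      intro h
      have h1 : (f b : ℕ) ≤ f a := hf h
      omega
    -- all elements between `a` and `b` are incomparable to `a` or `b`
    have hsub : (univ.filter fun z : P => i ≤ (f z : ℕ) ∧ (f z : ℕ) ≤ j) ⊆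
        (univ.filter fun z : P => ¬ a ≤ z ∧ ¬ z ≤ a) ∪
          (univ.filter fun z : P => ¬ b ≤ z ∧ ¬ z ≤ b) := by
      intro z hz
      rw [mem_filter] at hz
      obtain ⟨-, hz1, hz2⟩ := hz
      rw [mem_union, mem_filter, mem_filter]
      have h1 : z ≤ a → z = a := by
        intro h
        have h2 : (f z : ℕ) ≤ f a := hf h
        exact f.injective (Fin.ext (by omega))
      have h2 : b ≤ z → z = b := by
        intro h
        have h2 : (f b : ℕ) ≤ f z := hf h
        exact f.injective (Fin.ext (by omega))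
      by_cases hza : z = a
      · subst hza
        exact Or.inr ⟨mem_univ _, hba, hab⟩
      by_cases hzb : z = b
      · subst hzb
        exact Or.inl ⟨mem_univ _, hab, hba⟩
      by_cases haz : a ≤ z
      · right
        refine ⟨mem_univ _, fun h => hzb (h2 h), fun h => hab (haz.trans h)⟩
      · left
        exact ⟨mem_univ _, haz, fun h => hza (h1 h)⟩
    have hcard : (univ.filter fun z : P => i ≤ (f z : ℕ) ∧ (f z : ℕ) ≤ j).card = j + 1 - i := by
      have h1 : (univ.filter fun z : P => i ≤ (f z : ℕ) ∧ (f z : ℕ) ≤ j) =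
          (Finset.Icc (⟨i, by omega⟩ : Fin (Fintype.card P)) ⟨j, hj⟩).map
            f.symm.toEmbedding := by
        ext z
        rw [mem_filter, mem_map]
        constructor
        · rintro ⟨-, h1, h2⟩
          exact ⟨f z, Finset.mem_Icc.2 ⟨Fin.le_def.2 h1, Fin.le_def.2 h2⟩, f.symm_apply_apply z⟩
        · rintro ⟨w, hw, rfl⟩
          rw [Finset.mem_Icc, Fin.le_def, Fin.le_def] at hw
          refine ⟨mem_univ _, ?_⟩
          show i ≤ (f (f.symm w) : ℕ) ∧ (f (f.symm w) : ℕ) ≤ j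
          rw [f.apply_symm_apply]
          exact hw
      rw [h1, card_map, Fin.card_Icc]
    have hinc : ∀ w : P, (univ.filter fun z : P => ¬ w ≤ z ∧ ¬ z ≤ w).card ≤ K := by
      intro w
      have h4 := hK w
      unfold inc at h4
      rw [Nat.card_eq_fintype_card, Fintype.card_subtype] at h4
      exact h4
    have h5 := (card_le_card hsub).trans (card_union_le _ _)
    have h6 := hinc a
    have h7 := hinc b
    omega

/-- a labelled poset as a code -/
noncomputable def labIso {K : ℕ} (hK1 : 1 ≤ K) (hK : ∀ x : P, inc x ≤ K)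
    (f : P ≃ Fin (Fintype.card P)) (hf : Monotone f) : P ≃o Wd (lab_good hK1 hK f hf) where
  toFun x := Wd.mk _ (f x) (f x).2
  invFun x := f.symm ⟨x.val, x.val_lt⟩
  left_inv x := by
    show f.symm ⟨(f x : ℕ), _⟩ = x
    exact f.symm_apply_apply x
  right_inv x := by
    refine Wd.ext ?_
    show (f (f.symm ⟨x.val, x.val_lt⟩) : ℕ) = x.val
    rw [f.apply_symm_apply]
  map_rel_iff' := by
    intro x y
    have h1 : lab f (f x) (f y) ↔ x < y := by
      unfold lab
      constructor
      · rintro ⟨h1, h2, h3⟩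
        have e1 : f.symm ⟨(f x : ℕ), h1⟩ = x := f.symm_apply_apply x
        have e2 : f.symm ⟨(f y : ℕ), h2⟩ = y := f.symm_apply_apply y
        rw [e1, e2] at h3
        exact h3
      · intro h
        refine ⟨(f x).2, (f y).2, ?_⟩
        have e1 : f.symm ⟨(f x : ℕ), (f x).2⟩ = x := f.symm_apply_apply x
        have e2 : f.symm ⟨(f y : ℕ), (f y).2⟩ = y := f.symm_apply_apply y
        rw [e1, e2]
        exact h
    constructor
    · rintro (h | h)
      · have h2 := congrArg Wd.val h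
        have h3 : (f x : ℕ) = f y := h2
        exact (f.injective (Fin.ext h3)).le
      · exact (h1.1 h).le
    · intro h
      rcases h.lt_or_eq with h | h
      · exact Or.inr (h1.2 h)
      · subst h
        exact Or.inl rfl

end Label

section CutCode

variable {M n : ℕ} {r : ℕ → ℕ → Prop}

lemma noCut_of_indec (h : Good M n r) (hI : Indec (Wd h)) (c : ℕ) : ¬ Cut n r c := by
  rintro ⟨h0, h1, h2⟩
  refine hI ⟨{x | x.val < c}, ⟨Wd.mk h 0 (by omega), h0⟩, ⟨Wd.mk h c h1, fun hc => ?_⟩, ?_⟩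
  · exact lt_irrefl c hc
  · intro a ha b hb
    have hb' : c ≤ b.val := not_lt.1 hb
    have h3 := h2 a.val b.val ha hb' b.val_lt
    refine lt_of_le_of_ne (Or.inr h3) ?_
    rintro rfl
    exact lt_irrefl _ (h.lt _ _ h3)

lemma cut_of_split (h : Good M n r) (A : Set (Wd h)) (hA1 : A.Nonempty) (hA2 : Aᶜ.Nonempty)
    (hA : ∀ a ∈ A, ∀ b ∈ Aᶜ, a < b) : ∃ c, Cut n r c := by
  classical
  have hex : ∃ c, ∃ y : Wd h, y ∈ Aᶜ ∧ y.val = c := by
    obtain ⟨y, hy⟩ := hA2
    exact ⟨y.val, y, hy, rfl⟩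
  obtain ⟨y, hy, hyc⟩ := Nat.find_spec hex
  set c := Nat.find hex with hc
  have hmin : ∀ z : Wd h, z.val < c → z ∈ A := by
    intro z hz
    by_contra hcon
    exact Nat.find_min hex hz ⟨z, hcon, rfl⟩
  have hval : ∀ a b : Wd h, a < b → a.val < b.val := by
    intro a b hab
    rcases hab.le with h1 | h1
    · exact absurd h1 hab.ne
    · exact h.lt _ _ h1
  have hmax : ∀ z : Wd h, c ≤ z.val → z ∈ Aᶜ := by
    intro z hz hzA
    have h1 := hval z y (hA z hzA y hy)
    omega
  obtain ⟨a, ha⟩ := hA1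
  have h1 := hval a y (hA a ha y hy)
  refine ⟨c, by omega, by rw [← hyc]; exact y.val_lt, ?_⟩
  intro i j hi hj hjn
  have hin : i < n := by omega
  have h2 := hA (Wd.mk h i hin) (hmin _ hi) (Wd.mk h j hjn) (hmax _ hj)
  rcases h2.le with h3 | h3
  · exact absurd h3 h2.ne
  · exact h3

lemma InD.nonempty' {P : Type} [PartialOrder P] (h : InD P) : Nonempty P := by
  induction h with
  | one P e =>
    obtain ⟨e⟩ := e
    exact ⟨e.symm 0⟩
  | three P e =>
    obtain ⟨e⟩ := e
    exact ⟨e.symm (Sum.inl 0)⟩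
  | sum P Q R _ _ e ihP ihQ =>
    obtain ⟨e⟩ := e
    obtain ⟨p⟩ := ihP
    exact ⟨e.symm (toLex (Sum.inl p))⟩

lemma notInD_of_noCut (h : Good M n r) (hn : 4 ≤ n) (hcut : ∀ c, ¬ Cut n r c) :
    ¬ InD (Wd h) := by
  intro hD
  cases hD with
  | one _ e =>
    obtain ⟨e⟩ := e
    have h1 := Fintype.card_congr e.toEquiv
    rw [Wd.card, Fintype.card_fin] at h1
    omega
  | three _ e =>
    obtain ⟨e⟩ := e
    have h1 := Fintype.card_congr e.toEquiv
    rw [Wd.card, Fintype.card_sum, Fintype.card_fin, Fintype.card_fin] at h1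
    omega
  | sum P Q _ hP hQ e =>
    obtain ⟨e⟩ := e
    obtain ⟨p⟩ := InD.nonempty' hP
    obtain ⟨q⟩ := InD.nonempty' hQ
    obtain ⟨c, hc⟩ := cut_of_split h {x | ∃ p : P, e x = toLex (Sum.inl p)}
      ⟨e.symm (toLex (Sum.inl p)), p, e.apply_symm_apply _⟩
      ⟨e.symm (toLex (Sum.inr q)), fun ⟨p, hp⟩ => by
        rw [e.apply_symm_apply] at hp
        have h1 : (Sum.inr q : P ⊕ Q) = Sum.inl p := toLex.injective hp
        exact absurd h1 (by simp)⟩
      (by
        rintro a ⟨p, hp⟩ b hb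
        rcases hz : ofLex (e b) with p' | q'
        · exact absurd ⟨p', by rw [← hz]; rfl⟩ hb
        · have h1 : e b = toLex (Sum.inr q') := by rw [← hz]; rfl
          rw [← e.lt_iff_lt, hp, h1]
          exact Sum.Lex.inl_lt_inr _ _)
    exact hcut c hc

lemma notChain_of_noCut (h : Good M n r) (hn : 2 ≤ n) (hcut : ∀ c, ¬ Cut n r c) :
    ∃ x y : Wd h, ¬ x ≤ y ∧ ¬ y ≤ x := by
  by_contra hcon
  push Not at hcon
  refine hcut 1 ⟨by omega, by omega, fun i j hi hj hjn => ?_⟩
  have h1 := hcon (Wd.mk h i (by omega)) (Wd.mk h j hjn)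
  by_cases h2 : Wd.mk h i (by omega) ≤ Wd.mk h j hjn
  · rcases h2 with h3 | h3
    · have := congrArg Wd.val h3
      simp only [Wd.val_mk] at this
      omega
    · exact h3
  · have h3 := Wd.le_val (h1 h2)
    simp only [Wd.val_mk] at h3
    omega

end CutCode

end Pool.Agent.X65.Loc
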