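import Pool.Agent.X65.Loc.Low
import Pool.Agent.X65.Pos.Greedy

/-!
Duality, isomorphisms and direct sums; locality on the upper side.
-/

set_option autoImplicit false
set_option linter.unusedSectionVars false

open Finset

namespace Pool.Agent.X65.Loc

open Pool.Agent.H13R3.WB Pool.Agent.X65.Pos

section

variable {P Q : Type} [Fintype P] [PartialOrder P] [Fintype Q] [PartialOrder Q]

lemma prob_iso (e : Q ≃o P) (x y : Q) : prob P (e x) (e y) = prob Q x y := by
  classical
  rcases eq_or_ne x y with rfl | hxy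
  · rw [prob_self, prob_self]
  have hxy' : e x ≠ e y := fun h => hxy (e.injective h)
  rw [prob_eq_R hxy, prob_eq_R hxy', Fintype.card_congr e.toEquiv.symm]
  have h := R_embed (P := P) e.toOrderEmbedding (fun q p _ => ⟨e.symm p, e.apply_symm_apply p⟩) ∅
    (fun p => ⟨fun _ => ⟨e.symm p, e.apply_symm_apply p⟩, fun _ => notMem_empty p⟩)
    (Fintype.card Q) x y
  exact h.symm

lemma prob_dual (x y : P) : prob Pᵒᵈ (OrderDual.toDual x) (OrderDual.toDual y) = prob P y x := by
  unfold prob
  have hcard : Fintype.card Pᵒᵈ = Fintype.card P := rfl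
  congr 1
  · congr 1
    refine Nat.card_congr (Equiv.subtypeEquiv
      ((Equiv.equivCongr OrderDual.ofDual (Fin.revPerm (n := Fintype.card P)))) ?_)
    intro f
    constructor
    · rintro ⟨h1, h2⟩
      refine ⟨fun a b hab => ?_, ?_⟩
      · have h3 : f (OrderDual.toDual b) ≤ f (OrderDual.toDual a) := h1 hab
        exact Fin.rev_le_rev.2 h3
      · exact Fin.rev_lt_rev.2 h2
    · rintro ⟨h1, h2⟩
      refine ⟨fun a b hab => ?_, ?_⟩
      · have h3 := h1 (show OrderDual.ofDual b ≤ OrderDual.ofDual a from hab)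
        exact Fin.rev_le_rev.1 h3
      · exact Fin.rev_lt_rev.1 h2
  · congr 1
    refine Nat.card_congr (Equiv.subtypeEquiv
      ((Equiv.equivCongr OrderDual.ofDual (Fin.revPerm (n := Fintype.card P)))) ?_)
    intro f
    constructor
    · intro h1 a b hab
      have h3 : f (OrderDual.toDual b) ≤ f (OrderDual.toDual a) := h1 hab
      exact Fin.rev_le_rev.2 h3
    · intro h1 a b hab
      have h3 := h1 (show OrderDual.ofDual b ≤ OrderDual.ofDual a from hab)
      exact Fin.rev_le_rev.1 h3

lemma inc_dual (x : P) : inc (OrderDual.toDual x) = inc x := by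
  unfold inc
  refine Nat.card_congr (Equiv.subtypeEquiv OrderDual.ofDual ?_)
  intro y
  constructor
  · rintro ⟨h1, h2⟩
    exact ⟨fun h => h2 h, fun h => h1 h⟩
  · rintro ⟨h1, h2⟩
    exact ⟨fun h => h2 h, fun h => h1 h⟩

lemma prob_add {x y : P} (hxy : x ≠ y) : prob P x y + prob P y x = 1 := by
  unfold prob
  rw [← add_div]
  have h0 : 0 < Pool.Agent.X65.Pos.ext P := Pool.Agent.X65.Pos.ext_pos
  unfold Pool.Agent.X65.Pos.ext at h0
  have h3 : (Nat.card {f : P ≃ Fin (Fintype.card P) // Monotone f ∧ f x < f y} : ℝ) +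
      Nat.card {f : P ≃ Fin (Fintype.card P) // Monotone f ∧ f y < f x} =
      Nat.card {f : P ≃ Fin (Fintype.card P) // Monotone f} := by
    classical
    rw [Nat.card_eq_fintype_card, Nat.card_eq_fintype_card, Nat.card_eq_fintype_card,
      Fintype.card_subtype, Fintype.card_subtype, Fintype.card_subtype, ← Nat.cast_add,
      ← card_union_of_disjoint]
    · congr 2
      refine Finset.ext fun f => ?_
      simp only [mem_filter, mem_univ, true_and, mem_union]
      constructor
      · rintro (h | h) <;> exact h.1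
      · intro h
        rcases lt_trichotomy (f x) (f y) with h4 | h4 | h4
        · exact Or.inl ⟨h, h4⟩
        · exact absurd (f.injective h4) hxy
        · exact Or.inr ⟨h, h4⟩
    · rw [disjoint_left]
      intro f hf hf'
      simp only [mem_filter, mem_univ, true_and] at hf hf'
      exact lt_asymm hf.2 hf'.2
  rw [h3]
  exact div_self (by exact_mod_cast h0.ne')

/-- **Locality, upper side.** -/
theorem loc_high (ι : Q ↪o P) {K : ℕ} (k : ℕ) (hthin : ∀ x : P, inc x ≤ K)
    (hdown : ∀ (q : Q) (p : P), p ≤ ι q → p ∈ Set.range ι) (x y : Q)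
    (hx : Fintype.card P + k * K < Fintype.card Q + Nat.card {w : P // ι x ≤ w}) :
    |prob P (ι x) (ι y) - prob Q x y| ≤ (1 - 1 / (K.factorial : ℝ)) ^ k := by
  have h := loc_low (P := Pᵒᵈ) (Q := Qᵒᵈ) ι.dual k
    (fun x => (inc_dual (OrderDual.ofDual x)).le.trans (hthin (OrderDual.ofDual x)))
    (fun q p h => hdown q p h) (OrderDual.toDual y) (OrderDual.toDual x) hx
  have h1 : prob Pᵒᵈ (ι.dual (OrderDual.toDual y)) (ι.dual (OrderDual.toDual x)) =
      prob P (ι x) (ι y) := prob_dual (ι y) (ι x)
  have h2 : prob Qᵒᵈ (OrderDual.toDual y) (OrderDual.toDual x) = prob Q x y := prob_dual y x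
  rw [h1, h2] at h
  exact h

lemma le_balance (x y : P) : min (prob P x y) (prob P y x) ≤ balance P :=
  le_ciSup (f := fun p : P × P => min (prob P p.1 p.2) (prob P p.2 p.1))
    (Set.finite_range _).bddAbove (x, y)

lemma prob_nonneg' (x y : P) : 0 ≤ prob P x y := by
  unfold prob
  positivity

lemma balance_nonneg : 0 ≤ balance P :=
  Real.iSup_nonneg fun _ => le_min (prob_nonneg' _ _) (prob_nonneg' _ _)

lemma balance_le {c : ℝ} (hc : 0 ≤ c) (h : ∀ x y : P, min (prob P x y) (prob P y x) ≤ c) :
    balance P ≤ c := Real.iSup_le (fun p => h p.1 p.2) hc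

lemma balance_iso_le (e : Q ≃o P) : balance Q ≤ balance P := by
  refine balance_le balance_nonneg fun x y => ?_
  rw [← prob_iso e, ← prob_iso e]
  exact le_balance _ _

lemma balance_iso (e : Q ≃o P) : balance Q = balance P :=
  le_antisymm (balance_iso_le e) (balance_iso_le e.symm)

/-- the upper part of a cut -/
lemma prob_cut (ι : Q ↪o P) (hcut : ∀ (q : Q) (p : P), p ∉ Set.range ι → p < ι q) (x y : Q) :
    prob P (ι x) (ι y) = prob Q x y := by
  classical
  rcases eq_or_ne x y with rfl | hxy
  · rw [prob_self, prob_self]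
  have hxy' : ι x ≠ ι y := fun h => hxy (ι.injective h)
  set J₀ : Finset P := univ.filter (fun p => p ∉ Set.range ι) with hJ₀
  have hmemJ₀ : ∀ p, p ∉ J₀ ↔ p ∈ Set.range ι := by
    intro p
    rw [hJ₀, mem_filter]
    simp
  have hup : ∀ (q : Q) (p : P), ι q ≤ p → p ∈ Set.range ι := by
    intro q p h
    by_contra hc
    exact absurd (lt_of_lt_of_le (hcut q p hc) h) (lt_irrefl _)
  have hlow₀ : IsLow J₀ := by
    intro p hp q hq
    by_contra h1
    rw [hmemJ₀] at h1
    obtain ⟨z, rfl⟩ := h1
    exact (hmemJ₀ p).2 (hup z p hq) hp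
  have hcard₀ : J₀.card + Fintype.card Q = Fintype.card P := by
    have h1 : J₀ᶜ = univ.map ι.toEmbedding := by
      ext p
      rw [mem_compl, hmemJ₀, mem_map]
      simp
    have h2 : J₀ᶜ.card = Fintype.card Q := by
      rw [h1, card_map, card_univ]
    rw [card_compl] at h2
    have h3 : J₀.card ≤ Fintype.card P := card_le_univ _
    omega
  -- a lower set with an element of `Q` is large
  have hlarge : ∀ (z : Q) (S : Finset P), IsLow S → ι z ∈ S → J₀.card < S.card := by
    intro z S hS hz
    have h1 : insert (ι z) J₀ ⊆ S := by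
      intro w hw
      rcases mem_insert.1 hw with rfl | hw
      · exact hz
      · refine hS _ hz w (hcut z w ?_).le
        intro h2
        exact (hmemJ₀ w).2 h2 hw
    have h2 := card_le_card h1
    rw [card_insert_of_notMem ((hmemJ₀ _).2 ⟨z, rfl⟩)] at h2
    omega
  have hempty : IsLow (∅ : Finset P) := fun _ h => absurd h (notMem_empty _)
  obtain ⟨a1, b1⟩ := D_add_low (x := ι x) (y := ι y) J₀.card (Fintype.card Q) hempty
    (by rw [card_empty]; omega)
    (by
      rw [card_empty]
      intro S hS hc hy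
      have := hlarge y S hS hy
      omega)
  rw [card_empty, Nat.zero_add] at a1 b1
  have hT : univ.filter (fun J' : Finset P => IsLow J' ∧ J'.card = J₀.card) = {J₀} := by
    ext S
    rw [mem_filter, mem_singleton]
    constructor
    · rintro ⟨-, h1, h2⟩
      refine eq_of_subset_of_card_le (fun w hw => ?_) h2.symm.le
      by_contra h3
      obtain ⟨z, rfl⟩ := (hmemJ₀ w).1 h3
      have := hlarge z S h1 hw
      omega
    · rintro rfl
      exact ⟨mem_univ _, hlow₀, rfl⟩
  rw [hT, sum_singleton] at a1 b1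
  have hQ : prob Q x y = R (ι x) (ι y) (Fintype.card Q) J₀ := by
    rw [prob_eq_R hxy]
    exact R_embed ι hup J₀ hmemJ₀ _ x y
  have hRe : R (ι x) (ι y) (J₀.card + Fintype.card Q) ∅ =
      (D (Axy (ι x) (ι y)) (J₀.card + Fintype.card Q) ∅ : ℝ) /
        D (P := P) IsLow (J₀.card + Fintype.card Q) ∅ := rfl
  rw [prob_eq_R hxy', hQ, ← hcard₀, hRe, a1, b1]
  have h1 : (1 : ℝ) ≤ Kp (P := P) IsLow J₀.card ∅ J₀ := by
    exact_mod_cast Kp_pos J₀.card ∅ J₀ hempty hlow₀ (empty_subset _) (by simp)
  have h2 : (1 : ℝ) ≤ D (P := P) IsLow (Fintype.card Q) J₀ := by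
    exact_mod_cast D_pos hlow₀ hcard₀
  field_simp

/-- the upper part of a cut has at most the balance constant of the whole poset -/
lemma balance_upper (ι : Q ↪o P) (hcut : ∀ (q : Q) (p : P), p ∉ Set.range ι → p < ι q) :
    balance Q ≤ balance P := by
  refine balance_le balance_nonneg fun x y => ?_
  rw [← prob_cut ι hcut, ← prob_cut ι hcut]
  exact le_balance _ _

lemma balance_dual : balance Pᵒᵈ = balance P := by
  refine le_antisymm (balance_le balance_nonneg fun x y => ?_)
    (balance_le balance_nonneg fun x y => ?_)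
  · have h1 : prob Pᵒᵈ x y = prob P (OrderDual.ofDual y) (OrderDual.ofDual x) :=
      prob_dual (OrderDual.ofDual x) (OrderDual.ofDual y)
    have h2 : prob Pᵒᵈ y x = prob P (OrderDual.ofDual x) (OrderDual.ofDual y) :=
      prob_dual (OrderDual.ofDual y) (OrderDual.ofDual x)
    rw [h1, h2]
    exact le_balance _ _
  · rw [← prob_dual (P := P) y x, ← prob_dual (P := P) x y]
    exact le_balance (P := Pᵒᵈ) _ _

/-- the lower part of a cut has at most the balance constant of the whole poset -/
lemma balance_lower (ι : Q ↪o P) (hcut : ∀ (q : Q) (p : P), p ∉ Set.range ι → ι q < p) :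
    balance Q ≤ balance P := by
  rw [← balance_dual (P := Q), ← balance_dual (P := P)]
  exact balance_upper ι.dual (fun q p h => hcut q p h)

end

end Pool.Agent.X65.Loc
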