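import Pool.Agent.X65.Loc.Reduce

/-!
Consequences of the finite reduction.
-/

set_option autoImplicit false
set_option linter.unusedSectionVars false

open Finset

namespace Pool.Agent.X65.Loc

open Pool.Agent.H13R3.WB Pool.Agent.X65.Pos

lemma eps_facts {C N : ℕ} (hC : 1 ≤ C) (hN : C ≤ N) :
    0 < ((C : ℝ) / N) ^ (1 / (C : ℝ)) ∧ ((C : ℝ) / N) ^ (1 / (C : ℝ)) ≤ 1 ∧
      (C : ℝ) * (1 / (((C : ℝ) / N) ^ (1 / (C : ℝ)))) ^ C = N := by
  have hC0 : (0 : ℝ) < C := by exact_mod_cast hC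
  have hN0 : (0 : ℝ) < N := by exact_mod_cast (lt_of_lt_of_le hC hN)
  have h1 : 0 < (C : ℝ) / N := by positivity
  refine ⟨Real.rpow_pos_of_pos h1 _, Real.rpow_le_one h1.le ?_ (by positivity), ?_⟩
  · rw [div_le_one hN0]
    exact_mod_cast hN
  · have h2 : (((C : ℝ) / N) ^ (1 / (C : ℝ))) ^ C = (C : ℝ) / N := by
      rw [← Real.rpow_natCast, ← Real.rpow_mul h1.le, one_div_mul_cancel hC0.ne', Real.rpow_one]
    rw [one_div, inv_pow, h2, inv_div]
    field_simp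

/-- **Approximation by posets with at most `N` elements.** -/
theorem approx (η : ℝ) (hη : 0 < η) (hη2 : η ≤ 1 / 2) : ∃ C : ℕ, 1 ≤ C ∧ ∀ N : ℕ, C ≤ N →
    ∀ c : ℝ, c ≤ 1 / 2 - η →
    ((∀ (Q : Type) [Fintype Q] [PartialOrder Q] [Nonempty Q], ¬ InD Q → Fintype.card Q ≤ N →
        c ≤ balance Q) →
      ∀ (P : Type) [Fintype P] [PartialOrder P] [Nonempty P], ¬ InD P →
        c - ((C : ℝ) / N) ^ (1 / (C : ℝ)) ≤ balance P) ∧
    ((∀ (Q : Type) [Fintype Q] [PartialOrder Q], (∃ x y : Q, ¬ x ≤ y ∧ ¬ y ≤ x) →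
        Fintype.card Q ≤ N → c ≤ balance Q) →
      ∀ (P : Type) [Fintype P] [PartialOrder P], (∃ x y : P, ¬ x ≤ y ∧ ¬ y ≤ x) →
        c - ((C : ℝ) / N) ^ (1 / (C : ℝ)) ≤ balance P) := by
  obtain ⟨C, hC, H⟩ := reduction η hη hη2
  refine ⟨C, hC, fun N hN c hc => ?_⟩
  obtain ⟨e1, e2, e3⟩ := eps_facts hC hN
  set ε := ((C : ℝ) / N) ^ (1 / (C : ℝ)) with hε
  obtain ⟨H1, H2⟩ := H ε e1 e2
  constructor
  · intro h P _ _ _ hP
    by_cases hb : balance P < 1 / 2 - η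
    · obtain ⟨Q, i1, i2, i3, g1, g2, g3⟩ := H1 P hP hb
      rw [e3] at g2
      have h1 := h Q g1 (by exact_mod_cast g2)
      linarith
    · linarith
  · intro h P _ _ hP
    by_cases hb : balance P < 1 / 2 - η
    · obtain ⟨Q, i1, i2, g1, g2, g3⟩ := H2 P hP hb
      rw [e3] at g2
      have h1 := h Q g1 (by exact_mod_cast g2)
      linarith
    · linarith

/-- **The uniform gap is equivalent to a finite verification.** -/
theorem gap_iff : ∃ C : ℕ, 1 ≤ C ∧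
    ((∃ ε : ℝ, 0 < ε ∧ ∀ (P : Type) [Fintype P] [PartialOrder P] [Nonempty P], ¬ InD P →
        1 / 3 + ε ≤ balance P) ↔
      ∃ N : ℕ, C ≤ N ∧ ∀ (Q : Type) [Fintype Q] [PartialOrder Q] [Nonempty Q], ¬ InD Q →
        Fintype.card Q ≤ N → 1 / 3 + 2 * ((C : ℝ) / N) ^ (1 / (C : ℝ)) ≤ balance Q) := by
  obtain ⟨C, hC, H⟩ := reduction (1 / 20) (by norm_num) (by norm_num)
  refine ⟨C, hC, ?_, ?_⟩
  · rintro ⟨ε, hε, h⟩
    have hC0 : (0 : ℝ) < C := by exact_mod_cast hC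
    set N : ℕ := max C ⌈(C : ℝ) * (2 / ε) ^ C⌉₊ with hN
    refine ⟨N, le_max_left _ _, fun Q _ _ _ hQ _ => ?_⟩
    refine le_trans ?_ (h Q hQ)
    have h1 : (C : ℝ) * (2 / ε) ^ C ≤ N :=
      (Nat.le_ceil _).trans (by exact_mod_cast le_max_right _ _)
    have hN0 : (0 : ℝ) < N := lt_of_lt_of_le (by positivity) h1
    have h2 : (C : ℝ) / N ≤ (ε / 2) ^ C := by
      rw [div_le_iff₀ hN0]
      have h3 : (ε / 2) ^ C * ((C : ℝ) * (2 / ε) ^ C) = C := by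
        have h4 : (ε / 2) ^ C * (2 / ε) ^ C = 1 := by
          rw [← mul_pow]
          have h5 : ε / 2 * (2 / ε) = 1 := by field_simp
          rw [h5, one_pow]
        calc (ε / 2) ^ C * ((C : ℝ) * (2 / ε) ^ C) = C * ((ε / 2) ^ C * (2 / ε) ^ C) := by ring
          _ = C := by rw [h4, mul_one]
      calc (C : ℝ) = (ε / 2) ^ C * ((C : ℝ) * (2 / ε) ^ C) := h3.symm
        _ ≤ (ε / 2) ^ C * N := mul_le_mul_of_nonneg_left h1 (by positivity)
    have h3 : ((C : ℝ) / N) ^ (1 / (C : ℝ)) ≤ ε / 2 := by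
      calc ((C : ℝ) / N) ^ (1 / (C : ℝ)) ≤ ((ε / 2) ^ C) ^ (1 / (C : ℝ)) :=
            Real.rpow_le_rpow (by positivity) h2 (by positivity)
        _ = ε / 2 := by
            rw [← Real.rpow_natCast, ← Real.rpow_mul (by positivity), mul_one_div_cancel hC0.ne',
              Real.rpow_one]
    linarith
  · rintro ⟨N, hN, h⟩
    obtain ⟨e1, e2, e3⟩ := eps_facts hC hN
    set ε := ((C : ℝ) / N) ^ (1 / (C : ℝ)) with hε
    obtain ⟨H1, -⟩ := H ε e1 e2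
    refine ⟨min ε (1 / 20), lt_min e1 (by norm_num), fun P _ _ _ hP => ?_⟩
    by_cases hb : balance P < 1 / 2 - 1 / 20
    · obtain ⟨Q, i1, i2, i3, g1, g2, g3⟩ := H1 P hP hb
      rw [e3] at g2
      have h1 := h Q g1 (by exact_mod_cast g2)
      have h2 := min_le_left ε (1 / 20)
      linarith
    · have h2 := min_le_right ε (1 / 20)
      rw [not_lt] at hb
      linarith

end Pool.Agent.X65.Loc
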