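import Pool.Agent.X65.Loc.Paths

/-!
Removing an initial part of a thin poset does not change the probabilities far away.
-/

set_option autoImplicit false
set_option linter.unusedSectionVars false

open Finset

namespace Pool.Agent.X65.Loc

open Pool.Agent.H13R3.WB Pool.Agent.X65.Pos

section Embed

variable {P Q : Type} [Fintype P] [Fintype Q] [DecidableEq P] [DecidableEq Q]

lemma D_embed (ι : Q ↪ P) (J₀ : Finset P) (h : ∀ p, p ∉ J₀ ↔ p ∈ Set.range ι)
    (A : Finset P → Prop) [DecidablePred A] (A' : Finset Q → Prop) [DecidablePred A']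
    (hA : ∀ J : Finset Q, A' J ↔ A (J₀ ∪ J.map ι)) (m : ℕ) :
    ∀ J : Finset Q, D A m (J₀ ∪ J.map ι) = D A' m J := by
  induction m with
  | zero => intro J; rfl
  | succ m ih =>
    intro J
    rw [D, D]
    have hins : ∀ q : Q, insert (ι q) (J₀ ∪ J.map ι) = J₀ ∪ (insert q J).map ι := by
      intro q
      rw [map_insert, union_insert]
    have hmem : ∀ q : Q, ι q ∈ J₀ ∪ J.map ι ↔ q ∈ J := by
      intro q
      rw [mem_union, mem_map' ι]
      have h1 : ι q ∉ J₀ := (h (ι q)).2 ⟨q, rfl⟩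
      tauto
    symm
    refine sum_nbij ι ?_ ?_ ?_ ?_
    · intro q hq
      rw [mem_filter] at hq ⊢
      refine ⟨mem_univ _, fun h1 => hq.2.1 ((hmem q).1 h1), ?_⟩
      rw [hins, ← hA]
      exact hq.2.2
    · exact ι.injective.injOn
    · intro p hp
      rw [mem_coe, mem_filter] at hp
      have h1 : p ∉ J₀ := fun h2 => hp.2.1 (mem_union_left _ h2)
      obtain ⟨q, rfl⟩ := (h p).1 h1
      refine ⟨q, ?_, rfl⟩
      rw [mem_coe, mem_filter]
      refine ⟨mem_univ _, fun h2 => hp.2.1 ((hmem q).2 h2), ?_⟩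
      rw [hA, ← hins]
      exact hp.2.2
    · intro q _
      rw [hins, ih]

end Embed

section Main

variable {P : Type} [Fintype P] [PartialOrder P]

/-- allowed sets for the event that `x` comes before `y` -/
def Axy (x y : P) (J : Finset P) : Prop := IsLow J ∧ (y ∈ J → x ∈ J)

open scoped Classical in
/-- the probability that `x` comes before `y` after the lower set `J` has been removed -/
noncomputable def R (x y : P) (m : ℕ) (J : Finset P) : ℝ :=
  (D (Axy x y) m J : ℝ) / D (P := P) IsLow m J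

open scoped Classical in
lemma card_mono : Nat.card {f : P ≃ Fin (Fintype.card P) // Monotone f} =
    D (P := P) IsLow (Fintype.card P) ∅ := by
  rw [Nat.card_eq_fintype_card, Fintype.card_subtype,
    ← card_count IsLow rfl (fun _ h => absurd h (notMem_empty _))]
  congr 1
  exact filter_congr fun f _ => mono_iff f

open scoped Classical in
lemma card_mono_lt {x y : P} (hxy : x ≠ y) :
    Nat.card {f : P ≃ Fin (Fintype.card P) // Monotone f ∧ f x < f y} =
    D (Axy x y) (Fintype.card P) ∅ := by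
  rw [Nat.card_eq_fintype_card, Fintype.card_subtype,
    ← card_count (Axy x y) rfl
      ⟨fun _ h => absurd h (notMem_empty _), fun h => absurd h (notMem_empty _)⟩]
  congr 1
  exact filter_congr fun f _ => mono_lt_iff f hxy

lemma prob_eq_R {x y : P} (hxy : x ≠ y) : prob P x y = R x y (Fintype.card P) ∅ := by
  unfold prob R
  rw [card_mono, card_mono_lt hxy]

open scoped Classical in
lemma R_nonneg (x y : P) (m : ℕ) (J : Finset P) : 0 ≤ R x y m J := by
  unfold R
  positivity

open scoped Classical in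
lemma R_le_one (x y : P) (m : ℕ) (J : Finset P) : R x y m J ≤ 1 := by
  unfold R
  refine div_le_one_of_le₀ ?_ (by positivity)
  exact_mod_cast D_mono (Axy x y) IsLow (fun _ h => h.1) m J

open scoped Classical in
lemma D_R {x y : P} {m : ℕ} {J : Finset P} (hJ : IsLow J) (hm : J.card + m = Fintype.card P) :
    (D (Axy x y) m J : ℝ) = D (P := P) IsLow m J * R x y m J := by
  have h1 : (1 : ℝ) ≤ D (P := P) IsLow m J := by exact_mod_cast D_pos hJ hm
  unfold R
  field_simp

/-- sums over the possible sets after `r` steps -/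
lemma D_add_low {x y : P} (r m : ℕ) {J : Finset P} (hJ : IsLow J)
    (hm : J.card + (r + m) = Fintype.card P)
    (hy : ∀ S : Finset P, IsLow S → S.card ≤ J.card + r → y ∉ S) :
    open scoped Classical in
    (D (P := P) IsLow (r + m) J : ℝ) =
      ∑ J' ∈ univ.filter (fun J' : Finset P => IsLow J' ∧ J'.card = J.card + r),
        (Kp (P := P) IsLow r J J' : ℝ) * D (P := P) IsLow m J' ∧
    (D (Axy x y) (r + m) J : ℝ) =
      ∑ J' ∈ univ.filter (fun J' : Finset P => IsLow J' ∧ J'.card = J.card + r),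
        (Kp (P := P) IsLow r J J' : ℝ) * (D (P := P) IsLow m J' * R x y m J') := by
  classical
  constructor
  · rw [D_add (P := P) IsLow m r J]
    push_cast
    symm
    refine sum_subset (filter_subset _ _) fun J' _ h => ?_
    have h1 : Kp (P := P) IsLow r J J' = 0 := by
      by_contra hc
      obtain ⟨-, h2, h3⟩ := Kp_spec IsLow r J J' hc hJ
      exact h (mem_filter.2 ⟨mem_univ _, h3, h2⟩)
    rw [h1]
    simp
  · rw [D_add (P := P) (Axy x y) m r J]
    push_cast
    have hK : ∀ J' : Finset P, Kp (Axy x y) r J J' = Kp (P := P) IsLow r J J' := fun J' =>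
      Kp_congr (Axy x y) IsLow r J J' fun S hS =>
        ⟨fun h => h.1, fun h => ⟨h, fun h2 => absurd h2 (hy S h hS)⟩⟩
    symm
    have e1 : ∀ J' ∈ univ.filter (fun J' : Finset P => IsLow J' ∧ J'.card = J.card + r),
        (Kp (P := P) IsLow r J J' : ℝ) * (D (P := P) IsLow m J' * R x y m J') =
        (Kp (Axy x y) r J J' : ℝ) * D (Axy x y) m J' := by
      intro J' hJ'
      obtain ⟨-, h1, h2⟩ := mem_filter.1 hJ'
      rw [hK, D_R h1 (by omega)]
    rw [sum_congr rfl e1]
    refine sum_subset (filter_subset _ _) fun J' _ h => ?_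
    have h1 : Kp (P := P) IsLow r J J' = 0 := by
      by_contra hc
      obtain ⟨-, h2, h3⟩ := Kp_spec IsLow r J J' hc hJ
      exact h (mem_filter.2 ⟨mem_univ _, h3, h2⟩)
    rw [hK, h1]
    simp

/-- contraction over `k` blocks of `K` steps -/
lemma osc_low {x y : P} (K : ℕ)
    (H : ∀ J J' : Finset P, IsLow J → IsLow J' → J.card + K ≤ J'.card → J ⊆ J') (m k : ℕ) :
    ∀ t : ℕ, t + (k * K + m) = Fintype.card P →
    (∀ S : Finset P, IsLow S → S.card ≤ t + k * K → y ∉ S) →
    ∀ J₁ J₂ : Finset P, IsLow J₁ → IsLow J₂ → J₁.card = t → J₂.card = t →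
      R x y (k * K + m) J₁ - R x y (k * K + m) J₂ ≤ (1 - 1 / (K.factorial : ℝ)) ^ k := by
  classical
  induction k with
  | zero =>
    intro t _ _ J₁ J₂ _ _ _ _
    rw [pow_zero]
    have h1 := R_le_one x y (0 * K + m) J₁
    have h2 := R_nonneg x y (0 * K + m) J₂
    linarith
  | succ k ih =>
    intro t ht hy J₁ J₂ h1 h2 c1 c2
    have e0 : (k + 1) * K + m = K + (k * K + m) := by ring
    rw [e0] at ht ⊢
    have hy' : ∀ S : Finset P, IsLow S → S.card ≤ (t + K) + k * K → y ∉ S := by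
      intro S hS hc
      refine hy S hS (hc.trans (le_of_eq ?_))
      ring
    have hIH := ih (t + K) (by omega) hy'
    have hyK : ∀ S : Finset P, IsLow S → S.card ≤ t + K → y ∉ S :=
      fun S hS hc => hy' S hS (hc.trans (Nat.le_add_right _ _))
    obtain ⟨a1, b1⟩ := D_add_low (x := x) (y := y) K (k * K + m) h1 (by rw [c1]; exact ht)
      (by rw [c1]; exact hyK)
    obtain ⟨a2, b2⟩ := D_add_low (x := x) (y := y) K (k * K + m) h2 (by rw [c2]; exact ht)
      (by rw [c2]; exact hyK)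
    rw [c1] at a1 b1
    rw [c2] at a2 b2
    have hfac : (1 : ℝ) ≤ (K.factorial : ℝ) := by exact_mod_cast Nat.factorial_pos K
    have hpos1 : (1 : ℝ) ≤ D (P := P) IsLow (K + (k * K + m)) J₁ := by
      exact_mod_cast D_pos h1 (by omega)
    set T := univ.filter (fun J' : Finset P => IsLow J' ∧ J'.card = t + K) with hT
    have hTne : T.Nonempty := by
      rw [nonempty_iff_ne_empty]
      intro h
      rw [h, sum_empty] at a1
      linarith
    have hd : ∀ a ∈ T, (1 : ℝ) ≤ (D (P := P) IsLow (k * K + m) a : ℝ) := by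
      intro a ha
      obtain ⟨-, h3, h4⟩ := mem_filter.1 ha
      exact_mod_cast D_pos h3 (by omega)
    have hkb : ∀ J : Finset P, IsLow J → J.card = t → ∀ a ∈ T,
        (1 : ℝ) ≤ (Kp (P := P) IsLow K J a : ℝ) ∧
        (Kp (P := P) IsLow K J a : ℝ) ≤ (K.factorial : ℝ) := by
      intro J hJ hc a ha
      obtain ⟨-, h3, h4⟩ := mem_filter.1 ha
      refine ⟨?_, ?_⟩
      · exact_mod_cast Kp_pos K J a hJ h3 (H J a hJ h3 (by omega)) (by omega)
      · exact_mod_cast Kp_le IsLow K J a
    have key := osc_step T (fun a => (D (P := P) IsLow (k * K + m) a : ℝ))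
      (fun a => R x y (k * K + m) a) (fun a => (Kp (P := P) IsLow K J₁ a : ℝ))
      (fun a => (Kp (P := P) IsLow K J₂ a : ℝ)) ((1 - 1 / (K.factorial : ℝ)) ^ k)
      (K.factorial : ℝ) hfac (fun a ha => by linarith [hd a ha])
      (sum_pos (fun a ha => by linarith [hd a ha]) hTne)
      (fun a ha b hb => by
        obtain ⟨-, h3, h4⟩ := mem_filter.1 ha
        obtain ⟨-, h5, h6⟩ := mem_filter.1 hb
        exact hIH a b h3 h5 h4 h6)
      (hkb J₁ h1 c1) (hkb J₂ h2 c2)
    have r1 : R x y (K + (k * K + m)) J₁ = (D (Axy x y) (K + (k * K + m)) J₁ : ℝ) /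
        D (P := P) IsLow (K + (k * K + m)) J₁ := rfl
    have r2 : R x y (K + (k * K + m)) J₂ = (D (Axy x y) (K + (k * K + m)) J₂ : ℝ) /
        D (P := P) IsLow (K + (k * K + m)) J₂ := rfl
    rw [pow_succ', r1, r2, a1, a2, b1, b2]
    exact key

end Main

section Thin

variable {P : Type} [Fintype P] [PartialOrder P]

/-- in a thin poset larger lower sets contain the smaller ones -/
lemma thin_subset {K : ℕ} (hthin : ∀ x : P, inc x ≤ K) (J J' : Finset P) (hJ : IsLow J)
    (hJ' : IsLow J') (h : J.card + K ≤ J'.card) : J ⊆ J' := by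
  classical
  intro z hz
  by_contra hz'
  have h1 : J' ⊆ (J.erase z) ∪ univ.filter (fun w => ¬ z ≤ w ∧ ¬ w ≤ z) := by
    intro w hw
    rw [mem_union, mem_filter, mem_erase]
    by_cases h2 : w ≤ z
    · exact Or.inl ⟨fun h3 => hz' (h3 ▸ hw), hJ z hz w h2⟩
    · exact Or.inr ⟨mem_univ _, fun h3 => hz' (hJ' w hw z h3), h2⟩
  have h2 := (card_le_card h1).trans (card_union_le _ _)
  rw [card_erase_of_mem hz] at h2
  have h3 : (univ.filter (fun w => ¬ z ≤ w ∧ ¬ w ≤ z)).card ≤ K := by
    have h4 := hthin z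
    unfold inc at h4
    rw [Nat.card_eq_fintype_card, Fintype.card_subtype] at h4
    exact h4
  have h4 : 0 < J.card := card_pos.2 ⟨z, hz⟩
  omega

/-- the part of `P` above a lower set -/
lemma R_embed {Q : Type} [Fintype Q] [PartialOrder Q] (ι : Q ↪o P)
    (hup : ∀ (q : Q) (p : P), ι q ≤ p → p ∈ Set.range ι) (J₀ : Finset P)
    (hmemJ₀ : ∀ p, p ∉ J₀ ↔ p ∈ Set.range ι) (m : ℕ) (x y : Q) :
    R x y m ∅ = R (ι x) (ι y) m J₀ := by
  classical
  have hm1 : ∀ (J : Finset Q) (z : Q), ι z ∈ J₀ ∪ J.map ι.toEmbedding ↔ z ∈ J := by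
    intro J z
    have h1 : ι z ∉ J₀ := (hmemJ₀ (ι z)).2 ⟨z, rfl⟩
    have h2 : ι z ∈ J.map ι.toEmbedding ↔ z ∈ J := mem_map' ι.toEmbedding
    rw [mem_union, h2]
    tauto
  have hlow : ∀ J : Finset Q, IsLow J ↔ IsLow (J₀ ∪ J.map ι.toEmbedding) := by
    intro J
    constructor
    · intro hJ p hp q hq
      by_cases hq0 : q ∈ J₀
      · exact mem_union_left _ hq0
      · obtain ⟨z, rfl⟩ := (hmemJ₀ q).1 hq0
        obtain ⟨w, rfl⟩ := hup z p hq
        exact (hm1 J z).2 (hJ w ((hm1 J w).1 hp) z (ι.le_iff_le.1 hq))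
    · intro hJ w hw z hz
      exact (hm1 J z).1 (hJ (ι w) ((hm1 J w).2 hw) (ι z) (ι.le_iff_le.2 hz))
  have e1 : D (Axy x y) m (∅ : Finset Q) = D (Axy (ι x) (ι y)) m J₀ := by
    rw [← D_embed ι.toEmbedding J₀ (fun p => hmemJ₀ p) (Axy (ι x) (ι y)) (Axy x y) _ m ∅]
    · simp
    · intro J
      exact and_congr (hlow J) (by rw [hm1, hm1])
  have e2 : D (P := Q) IsLow m (∅ : Finset Q) = D (P := P) IsLow m J₀ := by
    rw [← D_embed ι.toEmbedding J₀ (fun p => hmemJ₀ p) IsLow IsLow hlow m ∅]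
    simp
  unfold R
  rw [e1, e2]

/-- **Locality, lower side.** -/
theorem loc_low {Q : Type} [Fintype Q] [PartialOrder Q] (ι : Q ↪o P) {K : ℕ} (k : ℕ)
    (hthin : ∀ x : P, inc x ≤ K) (hup : ∀ (q : Q) (p : P), ι q ≤ p → p ∈ Set.range ι) (x y : Q)
    (hy : Fintype.card P + k * K < Fintype.card Q + Nat.card {w : P // w ≤ ι y}) :
    |prob P (ι x) (ι y) - prob Q x y| ≤ (1 - 1 / (K.factorial : ℝ)) ^ k := by
  classical
  have hθ0 : (0 : ℝ) ≤ 1 - 1 / (K.factorial : ℝ) := by
    have : (1 : ℝ) ≤ (K.factorial : ℝ) := by exact_mod_cast Nat.factorial_pos K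
    rw [sub_nonneg, div_le_one (by linarith)]
    exact this
  rcases eq_or_ne x y with rfl | hxy
  · rw [prob_self, prob_self]
    simp only [sub_self, abs_zero]
    positivity
  have hxy' : ι x ≠ ι y := fun h => hxy (ι.injective h)
  set J₀ : Finset P := univ.filter (fun p => p ∉ Set.range ι) with hJ₀
  have hmemJ₀ : ∀ p, p ∉ J₀ ↔ p ∈ Set.range ι := by
    intro p
    rw [hJ₀, mem_filter]
    simp
  have hlow₀ : IsLow J₀ := by
    intro p hp q hq
    by_contra h1
    rw [hmemJ₀] at h1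
    obtain ⟨z, rfl⟩ := h1
    exact (hmemJ₀ p).2 (hup z p hq) hp
  have hcard₀ : J₀.card + Fintype.card Q = Fintype.card P := by
    have h1 : J₀ᶜ = univ.map ι.toEmbedding := by
      ext p
      rw [mem_compl, hmemJ₀, mem_map]
      simp
    have h2 : J₀ᶜ.card = Fintype.card Q := by
      rw [h1, card_map, card_univ]
    rw [card_compl] at h2
    have h3 : J₀.card ≤ Fintype.card P := card_le_univ _
    omega
  -- the elements far up are not in small lower sets
  have far : ∀ z : Q, Fintype.card P + k * K < Fintype.card Q + Nat.card {w : P // w ≤ ι z} →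
      ∀ S : Finset P, IsLow S → S.card ≤ J₀.card + k * K → ι z ∉ S := by
    intro z hz S hS hc hmem
    have h1 : Nat.card {w : P // w ≤ ι z} ≤ S.card := by
      rw [Nat.card_eq_fintype_card, Fintype.card_subtype]
      exact card_le_card fun w hw => hS _ hmem w (mem_filter.1 hw).2
    omega
  have hfy := far y hy
  have hle : J₀.card + k * K ≤ Fintype.card P := by
    by_contra hcon
    have h1 := hfy univ isLow_univ (by rw [card_univ]; omega)
    exact h1 (mem_univ _)
  obtain ⟨m, hm⟩ := Nat.exists_eq_add_of_le hle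
  -- the probability in `Q`
  have hQ : prob Q x y = R (ι x) (ι y) (k * K + m) J₀ := by
    have hcQ : Fintype.card Q = k * K + m := by omega
    rw [prob_eq_R hxy, hcQ]
    exact R_embed ι hup J₀ hmemJ₀ _ x y
  -- the probability in `P` is an average
  have hcP : Fintype.card P = J₀.card + (k * K + m) := by omega
  have hempty : IsLow (∅ : Finset P) := fun _ h => absurd h (notMem_empty _)
  obtain ⟨a1, b1⟩ := D_add_low (x := ι x) (y := ι y) J₀.card (k * K + m) hempty
    (by rw [card_empty]; omega)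
    (by
      rw [card_empty]
      intro S hS hc
      exact hfy S hS (by omega))
  rw [card_empty, Nat.zero_add] at a1 b1
  rw [prob_eq_R hxy', hQ, hcP]
  have hosc := osc_low (x := ι x) (y := ι y) K (fun J J' => thin_subset hthin J J') m k
    J₀.card (by omega) hfy
  have hRe : R (ι x) (ι y) (J₀.card + (k * K + m)) ∅ =
      (D (Axy (ι x) (ι y)) (J₀.card + (k * K + m)) ∅ : ℝ) /
        D (P := P) IsLow (J₀.card + (k * K + m)) ∅ := rfl
  rw [hRe]
  have hpos : (1 : ℝ) ≤ D (P := P) IsLow (J₀.card + (k * K + m)) ∅ := by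
    exact_mod_cast D_pos hempty (by rw [card_empty]; omega)
  set r₀ := R (ι x) (ι y) (k * K + m) J₀ with hr₀
  set T := univ.filter (fun J' : Finset P => IsLow J' ∧ J'.card = J₀.card) with hT
  have hsub : (D (Axy (ι x) (ι y)) (J₀.card + (k * K + m)) ∅ : ℝ) -
      r₀ * D (P := P) IsLow (J₀.card + (k * K + m)) ∅ =
      ∑ J' ∈ T, (Kp (P := P) IsLow J₀.card ∅ J' : ℝ) * D (P := P) IsLow (k * K + m) J' *
        (R (ι x) (ι y) (k * K + m) J' - r₀) := by
    rw [a1, b1, mul_sum, ← sum_sub_distrib]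
    exact sum_congr rfl fun J' _ => by ring
  have hfin : |(D (Axy (ι x) (ι y)) (J₀.card + (k * K + m)) ∅ : ℝ) -
      r₀ * D (P := P) IsLow (J₀.card + (k * K + m)) ∅| ≤
      (1 - 1 / (K.factorial : ℝ)) ^ k * D (P := P) IsLow (J₀.card + (k * K + m)) ∅ := by
    rw [hsub, a1, mul_sum]
    refine (abs_sum_le_sum_abs _ _).trans (sum_le_sum fun J' hJ' => ?_)
    obtain ⟨-, h1, h2⟩ := mem_filter.1 hJ'
    rw [abs_mul, abs_of_nonneg (by positivity : (0 : ℝ) ≤
      (Kp (P := P) IsLow J₀.card ∅ J' : ℝ) * D (P := P) IsLow (k * K + m) J'), mul_comm]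
    refine mul_le_mul_of_nonneg_right ?_ (by positivity)
    rw [abs_le]
    have h3 := hosc J' J₀ h1 hlow₀ h2 rfl
    have h4 := hosc J₀ J' hlow₀ h1 rfl h2
    constructor <;> linarith
  have e3 : (D (Axy (ι x) (ι y)) (J₀.card + (k * K + m)) ∅ : ℝ) /
      D (P := P) IsLow (J₀.card + (k * K + m)) ∅ - r₀ =
      ((D (Axy (ι x) (ι y)) (J₀.card + (k * K + m)) ∅ : ℝ) -
      r₀ * D (P := P) IsLow (J₀.card + (k * K + m)) ∅) /
        D (P := P) IsLow (J₀.card + (k * K + m)) ∅ := by
    field_simp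
  rw [e3, abs_div, abs_of_pos (by linarith : (0 : ℝ) <
    (D (P := P) IsLow (J₀.card + (k * K + m)) ∅ : ℝ)), div_le_iff₀ (by linarith)]
  exact hfin

end Thin

end Pool.Agent.X65.Loc
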