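import Pool.Agent.X65.Pos.Entropy

/-!
Paths in the lattice of lower sets and contraction.
-/

set_option autoImplicit false
set_option linter.unusedSectionVars false

open Finset

namespace Pool.Agent.X65.Loc

open Pool.Agent.H13R3.WB

section Paths

variable {P : Type} [Fintype P] [DecidableEq P]

/-- number of paths of `r` steps from `J` to `J'` -/
def Kp (A : Finset P → Prop) [DecidablePred A] : ℕ → Finset P → Finset P → ℕ
  | 0, J, J' => if J = J' then 1 else 0
  | r + 1, J, J' => ∑ p ∈ univ.filter (fun p => p ∉ J ∧ A (insert p J)), Kp A r (insert p J) J'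

variable (A : Finset P → Prop) [DecidablePred A]

lemma D_add (m r : ℕ) : ∀ J : Finset P,
    D A (r + m) J = ∑ J' : Finset P, Kp A r J J' * D A m J' := by
  induction r with
  | zero =>
    intro J
    simp [Kp]
  | succ r ih =>
    intro J
    have h1 : r + 1 + m = (r + m) + 1 := by ring
    rw [h1, D]
    simp only [Kp, sum_mul]
    rw [sum_comm]
    exact sum_congr rfl fun p _ => ih _

lemma Kp_congr (A' : Finset P → Prop) [DecidablePred A'] (r : ℕ) : ∀ J J' : Finset P,
    (∀ S : Finset P, S.card ≤ J.card + r → (A S ↔ A' S)) → Kp A r J J' = Kp A' r J J' := by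
  induction r with
  | zero => intro J J' _; rfl
  | succ r ih =>
    intro J J' h
    rw [Kp, Kp]
    refine sum_congr (filter_congr fun p _ => ?_) fun p hp => ?_
    · refine and_congr_right fun hp => h _ ?_
      rw [card_insert_of_notMem hp]
      omega
    · have hp' := (mem_filter.1 hp).2.1
      refine ih _ _ fun S hS => h S ?_
      rw [card_insert_of_notMem hp'] at hS
      omega

lemma Kp_spec (r : ℕ) : ∀ J J' : Finset P, Kp A r J J' ≠ 0 → A J →
    J ⊆ J' ∧ J'.card = J.card + r ∧ A J' := by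
  induction r with
  | zero =>
    intro J J' h hJ
    rw [Kp] at h
    have h1 : J = J' := by
      by_contra hc
      rw [if_neg hc] at h
      exact h rfl
    subst h1
    exact ⟨Subset.refl _, rfl, hJ⟩
  | succ r ih =>
    intro J J' h hJ
    rw [Kp] at h
    obtain ⟨p, hp, hp2⟩ := exists_ne_zero_of_sum_ne_zero h
    have hp' := (mem_filter.1 hp).2
    obtain ⟨h1, h2, h3⟩ := ih _ _ hp2 hp'.2
    rw [card_insert_of_notMem hp'.1] at h2
    exact ⟨(subset_insert _ _).trans h1, by omega, h3⟩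

lemma Kp_le (r : ℕ) : ∀ J J' : Finset P, Kp A r J J' ≤ r.factorial := by
  induction r with
  | zero =>
    intro J J'
    rw [Kp]
    split_ifs <;> simp
  | succ r ih =>
    intro J J'
    rcases Nat.eq_zero_or_pos (Kp A (r + 1) J J') with h0 | h0
    · rw [h0]; exact Nat.zero_le _
    -- the non zero terms
    have hsub : ∀ p ∈ univ.filter (fun p => p ∉ J ∧ A (insert p J)),
        Kp A r (insert p J) J' ≠ 0 → p ∈ J' \ J ∧ J'.card = J.card + (r + 1) ∧ J ⊆ J' := by
      intro p hp hne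
      have hp' := (mem_filter.1 hp).2
      obtain ⟨h1, h2, -⟩ := Kp_spec A r _ _ hne hp'.2
      rw [card_insert_of_notMem hp'.1] at h2
      exact ⟨mem_sdiff.2 ⟨h1 (mem_insert_self _ _), hp'.1⟩, by omega,
        (subset_insert _ _).trans h1⟩
    rw [Kp] at h0 ⊢
    obtain ⟨p₀, hp₀, hp₀2⟩ := exists_ne_zero_of_sum_ne_zero h0.ne'
    obtain ⟨-, hc, hJJ⟩ := hsub p₀ hp₀ hp₀2
    calc ∑ p ∈ univ.filter (fun p => p ∉ J ∧ A (insert p J)), Kp A r (insert p J) J'
        = ∑ p ∈ (univ.filter (fun p => p ∉ J ∧ A (insert p J))).filter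
            (fun p => Kp A r (insert p J) J' ≠ 0), Kp A r (insert p J) J' :=
          (sum_filter_ne_zero _).symm
      _ ≤ ∑ _p ∈ (univ.filter (fun p => p ∉ J ∧ A (insert p J))).filter
            (fun p => Kp A r (insert p J) J' ≠ 0), r.factorial := sum_le_sum fun p _ => ih _ _
      _ = ((univ.filter (fun p => p ∉ J ∧ A (insert p J))).filter
            (fun p => Kp A r (insert p J) J' ≠ 0)).card * r.factorial := by
          rw [sum_const, smul_eq_mul]
      _ ≤ (J' \ J).card * r.factorial := by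
          refine Nat.mul_le_mul_right _ (card_le_card fun p hp => ?_)
          obtain ⟨h1, h2⟩ := mem_filter.1 hp
          exact (hsub p h1 h2).1
      _ = (r + 1).factorial := by
          rw [card_sdiff_of_subset hJJ, hc, Nat.factorial_succ]
          congr 1
          omega

lemma D_mono (A' : Finset P → Prop) [DecidablePred A'] (h : ∀ S, A S → A' S) (m : ℕ) :
    ∀ J : Finset P, D A m J ≤ D A' m J := by
  induction m with
  | zero => intro J; rfl
  | succ m ih =>
    intro J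
    rw [D, D]
    refine (sum_le_sum fun p _ => ih _).trans (sum_le_sum_of_subset fun p hp => ?_)
    rw [mem_filter] at hp ⊢
    exact ⟨hp.1, hp.2.1, h _ hp.2.2⟩

end Paths

section Low

variable {P : Type} [Fintype P] [PartialOrder P]

open scoped Classical in
lemma Kp_pos (r : ℕ) : ∀ J J' : Finset P, IsLow J → IsLow J' → J ⊆ J' →
    J'.card = J.card + r → 1 ≤ Kp (P := P) IsLow r J J' := by
  induction r with
  | zero =>
    intro J J' _ _ h1 h2
    have h3 : J = J' := eq_of_subset_of_card_le h1 (by omega)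
    rw [Kp, if_pos h3]
  | succ r ih =>
    intro J J' hJ hJ' h1 h2
    have hne : (J' \ J).Nonempty := by
      rw [← card_pos, card_sdiff_of_subset h1]
      omega
    obtain ⟨p, hp⟩ := (J' \ J).exists_minimal hne
    have hpm := mem_sdiff.1 hp.1
    have hins : IsLow (insert p J) := by
      intro z hz q hq
      rcases mem_insert.1 hz with rfl | hz
      · by_cases hqJ : q ∈ J
        · exact mem_insert_of_mem hqJ
        · have h3 : q ∈ J' \ J := mem_sdiff.2 ⟨hJ' z hpm.1 q hq, hqJ⟩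
          have h4 : z ≤ q := hp.2 h3 hq
          exact mem_insert.2 (Or.inl (le_antisymm hq h4))
      · exact mem_insert_of_mem (hJ z hz q hq)
    have h3 := ih (insert p J) J' hins hJ' (insert_subset hpm.1 h1)
      (by rw [card_insert_of_notMem hpm.2]; omega)
    rw [Kp]
    refine h3.trans (single_le_sum (f := fun p => Kp (P := P) IsLow r (insert p J) J')
      (fun _ _ => Nat.zero_le _) ?_)
    exact mem_filter.2 ⟨mem_univ _, hpm.2, hins⟩

lemma isLow_univ : IsLow (univ : Finset P) := fun _ _ _ _ => mem_univ _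

open scoped Classical in
lemma D_pos {m : ℕ} {J : Finset P} (hJ : IsLow J) (hm : J.card + m = Fintype.card P) :
    1 ≤ D (P := P) IsLow m J := by
  have h1 := D_add (P := P) IsLow 0 m J
  rw [Nat.add_zero] at h1
  rw [h1]
  have h2 := Kp_pos m J univ hJ isLow_univ (subset_univ _) (by rw [card_univ]; exact hm.symm)
  refine h2.trans ?_
  have h3 : Kp (P := P) IsLow m J univ = Kp (P := P) IsLow m J univ * D (P := P) IsLow 0 univ := by
    simp [D]
  rw [h3]
  exact single_le_sum (f := fun J' => Kp (P := P) IsLow m J J' * D (P := P) IsLow 0 J')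
    (fun _ _ => Nat.zero_le _) (mem_univ _)

end Low

/-- the contraction -/
lemma osc_step {ι : Type} (T : Finset ι) (d q k₁ k₂ : ι → ℝ) (δ Λ : ℝ) (hΛ : 1 ≤ Λ)
    (hd : ∀ a ∈ T, 0 ≤ d a) (hS : 0 < ∑ a ∈ T, d a)
    (hq : ∀ a ∈ T, ∀ b ∈ T, q a - q b ≤ δ)
    (hk₁ : ∀ a ∈ T, 1 ≤ k₁ a ∧ k₁ a ≤ Λ) (hk₂ : ∀ a ∈ T, 1 ≤ k₂ a ∧ k₂ a ≤ Λ) :
    (∑ a ∈ T, k₁ a * (d a * q a)) / (∑ a ∈ T, k₁ a * d a) -
      (∑ a ∈ T, k₂ a * (d a * q a)) / (∑ a ∈ T, k₂ a * d a) ≤ (1 - 1 / Λ) * δ := by
  have hΛ0 : 0 < Λ := by linarith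
  set S := ∑ a ∈ T, d a with hSd
  have hTne : T.Nonempty := by
    rw [nonempty_iff_ne_empty]
    rintro rfl
    simp at hSd
    linarith
  obtain ⟨b, hbT, hb⟩ := exists_min_image T q hTne
  -- general facts on one weight
  have gen : ∀ k : ι → ℝ, (∀ a ∈ T, 1 ≤ k a ∧ k a ≤ Λ) → 0 < ∑ a ∈ T, k a * d a ∧
      (∀ a ∈ T, 0 ≤ k a * d a / (∑ a ∈ T, k a * d a) - 1 / Λ * (d a / S)) ∧
      ∑ a ∈ T, (k a * d a / (∑ a ∈ T, k a * d a) - 1 / Λ * (d a / S)) = 1 - 1 / Λ := by
    intro k hk
    have h1 : S ≤ ∑ a ∈ T, k a * d a := by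
      rw [hSd]
      exact sum_le_sum fun a ha => le_mul_of_one_le_left (hd a ha) (hk a ha).1
    have h2 : ∑ a ∈ T, k a * d a ≤ Λ * S := by
      rw [hSd, mul_sum]
      exact sum_le_sum fun a ha => mul_le_mul_of_nonneg_right (hk a ha).2 (hd a ha)
    have h3 : 0 < ∑ a ∈ T, k a * d a := by linarith
    refine ⟨h3, fun a ha => ?_, ?_⟩
    · rw [sub_nonneg, one_div_mul_eq_div, div_div]
      have h4 : d a ≤ k a * d a := le_mul_of_one_le_left (hd a ha) (hk a ha).1
      exact div_le_div₀ (h4.trans' (hd a ha)) h4 h3 (by linarith [mul_comm S Λ])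
    · rw [sum_sub_distrib, ← sum_div, ← mul_sum, ← sum_div, ← hSd, div_self h3.ne',
        div_self hS.ne', mul_one]
  obtain ⟨p1, n1, s1⟩ := gen k₁ hk₁
  obtain ⟨p2, n2, s2⟩ := gen k₂ hk₂
  set s₁ := ∑ a ∈ T, k₁ a * d a
  set s₂ := ∑ a ∈ T, k₂ a * d a
  have e1 : (∑ a ∈ T, k₁ a * (d a * q a)) / s₁ =
      ∑ a ∈ T, (k₁ a * d a / s₁ - 1 / Λ * (d a / S)) * q a +
        ∑ a ∈ T, 1 / Λ * (d a / S) * q a := by
    rw [sum_div, ← sum_add_distrib]
    exact sum_congr rfl fun a _ => by ring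
  have e2 : (∑ a ∈ T, k₂ a * (d a * q a)) / s₂ =
      ∑ a ∈ T, (k₂ a * d a / s₂ - 1 / Λ * (d a / S)) * q a +
        ∑ a ∈ T, 1 / Λ * (d a / S) * q a := by
    rw [sum_div, ← sum_add_distrib]
    exact sum_congr rfl fun a _ => by ring
  have u1 : ∑ a ∈ T, (k₁ a * d a / s₁ - 1 / Λ * (d a / S)) * q a ≤ (1 - 1 / Λ) * (q b + δ) := by
    rw [← s1, sum_mul]
    exact sum_le_sum fun a ha =>
      mul_le_mul_of_nonneg_left (by linarith [hq a ha b hbT]) (n1 a ha)
  have u2 : (1 - 1 / Λ) * q b ≤ ∑ a ∈ T, (k₂ a * d a / s₂ - 1 / Λ * (d a / S)) * q a := by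
    rw [← s2, sum_mul]
    exact sum_le_sum fun a ha => mul_le_mul_of_nonneg_left (hb a ha) (n2 a ha)
  rw [e1, e2]
  linarith

end Pool.Agent.X65.Loc
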