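import Pool.Agent.X65.Loc.Decomp

/-!
The finite reduction.
-/

set_option autoImplicit false
set_option linter.unusedSectionVars false

open Finset

namespace Pool.Agent.X65.Loc

open Pool.Agent.H13R3.WB Pool.Agent.X65.Pos

/-- the window length -/
def Lw (M k : ℕ) : ℕ := 2 * (k * (2 * M) + M) + M

lemma exists_label (S : Type) [Fintype S] [PartialOrder S] :
    ∃ f : S ≃ Fin (Fintype.card S), Monotone f := by
  have h1 : 0 < Pool.Agent.X65.Pos.ext S := Pool.Agent.X65.Pos.ext_pos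
  unfold Pool.Agent.X65.Pos.ext at h1
  have h2 := (Nat.card_pos_iff.1 h1).1
  obtain ⟨f, hf⟩ := h2
  exact ⟨f, hf⟩

theorem core {K : ℕ} (hK1 : 1 ≤ K) (S : Type) [Fintype S] [PartialOrder S]
    (hK : ∀ x : S, inc x ≤ K) (hI : Indec S) (k : ℕ) (hS : Lw (2 * K) k ≤ Fintype.card S) :
    ∃ (m : ℕ) (s : ℕ → ℕ → Prop) (hQ : Good (2 * K) m s), Lw (2 * K) k ≤ m ∧
      m ≤ 2 * 2 ^ (Lw (2 * K) k * (2 * K)) + Lw (2 * K) k ∧ (∀ c, ¬ Cut m s c) ∧
      balance (Wd hQ) ≤ balance S + 4 * dec (2 * K) ^ k := by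
  obtain ⟨f, hf⟩ := exists_label S
  have hP := lab_good hK1 hK f hf
  have e := labIso hK1 hK f hf
  have hcut : ∀ c, ¬ Cut (Fintype.card S) (lab f) c := by
    refine noCut_of_indec hP ?_
    rintro ⟨A, h1, h2, h3⟩
    refine hI ⟨e ⁻¹' A, ?_, ?_, ?_⟩
    · obtain ⟨a, ha⟩ := h1
      exact ⟨e.symm a, by show e (e.symm a) ∈ A; rw [e.apply_symm_apply]; exact ha⟩
    · obtain ⟨a, ha⟩ := h2
      exact ⟨e.symm a, by show ¬ e (e.symm a) ∈ A; rw [e.apply_symm_apply]; exact ha⟩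
    · intro a ha b hb
      exact e.lt_iff_lt.1 (h3 (e a) ha (e b) hb)
  obtain ⟨m, s, q, g1, g2, -, -, g5, -⟩ := shorten (L := Lw (2 * K) k) (Fintype.card S) (lab f) 0
    hP (by omega)
  refine ⟨m, s, g1, g2.hm, g5, sub_noCut hP g2 (by omega) (by unfold Lw; omega) hcut, ?_⟩
  rw [balance_iso e]
  exact sub_balance hP g1 g2 k le_rfl

lemma dec_pow (M k : ℕ) (ε : ℝ) (hε : 0 < ε)
    (hk : ((2 * M).factorial : ℝ) * Real.log (4 / ε) ≤ k) : 4 * dec M ^ k ≤ ε := by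
  have hF : (0 : ℝ) < ((2 * M).factorial : ℝ) := by exact_mod_cast Nat.factorial_pos _
  have h1 : dec M ≤ Real.exp (-(1 / ((2 * M).factorial : ℝ))) := by
    unfold dec
    exact Real.one_sub_le_exp_neg _
  have h2 : dec M ^ k ≤ Real.exp (-(1 / ((2 * M).factorial : ℝ))) ^ k :=
    pow_le_pow_left₀ (dec_nonneg M) h1 k
  rw [← Real.exp_nat_mul] at h2
  have h3 : (k : ℝ) * -(1 / ((2 * M).factorial : ℝ)) ≤ -Real.log (4 / ε) := by
    have h4 : Real.log (4 / ε) ≤ (k : ℝ) * (1 / ((2 * M).factorial : ℝ)) := by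
      rw [mul_one_div, le_div_iff₀ hF]
      linarith
    linarith
  have h4 := h2.trans (Real.exp_le_exp.2 h3)
  rw [Real.exp_neg, Real.exp_log (by positivity), inv_div] at h4
  linarith

lemma size_bound (M : ℕ) (hM : 1 ≤ M) : ∃ C : ℕ, 1 ≤ C ∧ ∀ ε : ℝ, 0 < ε → ε ≤ 1 →
    ∃ k : ℕ, 4 * dec M ^ k ≤ ε ∧ ((2 * 2 ^ (Lw M k * M) + Lw M k : ℕ) : ℝ) ≤ C * (1 / ε) ^ C := by
  set F : ℕ := (2 * M).factorial with hFd
  set E : ℕ := 4 * M ^ 2 * F with hE
  set A : ℝ := 3 * Real.exp (7 * (M : ℝ) ^ 2) * 4 ^ E with hA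
  refine ⟨max 1 (max ⌈A⌉₊ E), le_max_left _ _, fun ε hε hε1 => ?_⟩
  set C := max 1 (max ⌈A⌉₊ E) with hC
  have hlog : 0 ≤ Real.log (4 / ε) := by
    refine Real.log_nonneg ?_
    rw [le_div_iff₀ hε]
    linarith
  have hF0 : (0 : ℝ) ≤ (F : ℝ) := by positivity
  refine ⟨⌈(F : ℝ) * Real.log (4 / ε)⌉₊, dec_pow M _ ε hε (Nat.le_ceil _), ?_⟩
  set k := ⌈(F : ℝ) * Real.log (4 / ε)⌉₊ with hk
  have hk1 : (k : ℝ) ≤ F * Real.log (4 / ε) + 1 := (Nat.ceil_lt_add_one (by positivity)).le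
  have h1 : 2 * 2 ^ (Lw M k * M) + Lw M k ≤ 3 * 2 ^ (Lw M k * M) := by
    have h2 : Lw M k ≤ 2 ^ (Lw M k * M) :=
      (Nat.le_mul_of_pos_right _ (by omega)).trans Nat.lt_two_pow_self.le
    omega
  have hLM : Lw M k * M = 4 * M ^ 2 * k + 3 * M ^ 2 := by
    unfold Lw
    ring
  have h2 : ((2 : ℝ) ^ (Lw M k * M)) ≤ Real.exp (7 * (M : ℝ) ^ 2) * 4 ^ E * (1 / ε) ^ E := by
    have h3 : (2 : ℝ) ≤ Real.exp 1 := by
      have := Real.add_one_le_exp (1 : ℝ)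
      linarith
    calc (2 : ℝ) ^ (Lw M k * M) ≤ Real.exp 1 ^ (Lw M k * M) :=
          pow_le_pow_left₀ (by norm_num) h3 _
      _ = Real.exp ((Lw M k * M : ℕ) : ℝ) := by
          rw [← Real.exp_nat_mul, mul_one]
      _ ≤ Real.exp (7 * (M : ℝ) ^ 2 + E * Real.log (4 / ε)) := by
          refine Real.exp_le_exp.2 ?_
          rw [hLM, hE]
          push_cast
          nlinarith [mul_le_mul_of_nonneg_left hk1 (by positivity : (0 : ℝ) ≤ 4 * (M : ℝ) ^ 2)]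
      _ = Real.exp (7 * (M : ℝ) ^ 2) * 4 ^ E * (1 / ε) ^ E := by
          rw [Real.exp_add, Real.exp_nat_mul, Real.exp_log (by positivity), mul_assoc, ← mul_pow,
            mul_one_div]
  have h4 : ((2 * 2 ^ (Lw M k * M) + Lw M k : ℕ) : ℝ) ≤ 3 * 2 ^ (Lw M k * M) := by
    exact_mod_cast h1
  have h5 : (1 : ℝ) ≤ 1 / ε := by
    rw [le_div_iff₀ hε]
    linarith
  have h6 : (1 / ε) ^ E ≤ (1 / ε) ^ C :=
    pow_le_pow_right₀ h5 ((le_max_right _ _).trans (le_max_right _ _))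
  have h7 : A ≤ C := (Nat.le_ceil A).trans
    (by exact_mod_cast (le_max_left _ _).trans (le_max_right _ _))
  calc ((2 * 2 ^ (Lw M k * M) + Lw M k : ℕ) : ℝ) ≤ 3 * 2 ^ (Lw M k * M) := h4
    _ ≤ 3 * (Real.exp (7 * (M : ℝ) ^ 2) * 4 ^ E * (1 / ε) ^ E) := by linarith
    _ = A * (1 / ε) ^ E := by rw [hA]; ring
    _ ≤ C * (1 / ε) ^ C := mul_le_mul h7 h6 (by positivity) (by positivity)

/-- thinness of posets with balance constant less than `1/2 - η` -/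
lemma thin_of_balance (η : ℝ) (hη : 0 < η) (hη2 : η ≤ 1 / 2) : ∃ K : ℕ, 1 ≤ K ∧
    ∀ (S : Type) [Fintype S] [PartialOrder S], balance S < 1 / 2 - η → ∀ x : S, inc x ≤ K := by
  obtain ⟨B, hB, H⟩ := Pool.Agent.Y491.ID.incomparable_balance
  refine ⟨max 1 ⌈Real.exp (B * Real.log (2 / η) ^ 3 / η ^ 4)⌉₊, le_max_left _ _, ?_⟩
  intro S _ _ hS x
  by_contra hcon
  rw [not_le] at hcon
  have h1 : Real.exp (B * Real.log (2 / η) ^ 3 / η ^ 4) ≤ (inc x : ℝ) := by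
    refine (Nat.le_ceil _).trans ?_
    exact_mod_cast ((le_max_right _ _).trans hcon.le)
  have h2 := H η hη hη2 S x h1
  linarith

/-- **The finite reduction.** -/
theorem reduction (η : ℝ) (hη : 0 < η) (hη2 : η ≤ 1 / 2) : ∃ C : ℕ, 1 ≤ C ∧
    ∀ ε : ℝ, 0 < ε → ε ≤ 1 →
    (∀ (P : Type) [Fintype P] [PartialOrder P] [Nonempty P], ¬ InD P → balance P < 1 / 2 - η →
      ∃ (Q : Type) (_ : Fintype Q) (_ : PartialOrder Q), Nonempty Q ∧ ¬ InD Q ∧
        (Fintype.card Q : ℝ) ≤ C * (1 / ε) ^ C ∧ balance Q ≤ balance P + ε) ∧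
    (∀ (P : Type) [Fintype P] [PartialOrder P], (∃ x y : P, ¬ x ≤ y ∧ ¬ y ≤ x) →
      balance P < 1 / 2 - η →
      ∃ (Q : Type) (_ : Fintype Q) (_ : PartialOrder Q), (∃ x y : Q, ¬ x ≤ y ∧ ¬ y ≤ x) ∧
        (Fintype.card Q : ℝ) ≤ C * (1 / ε) ^ C ∧ balance Q ≤ balance P + ε) := by
  obtain ⟨K, hK1, hK⟩ := thin_of_balance η hη hη2
  obtain ⟨C, hC1, hC⟩ := size_bound (2 * K) (by omega)
  refine ⟨C, hC1, fun ε hε hε1 => ?_⟩
  obtain ⟨k, hk1, hk2⟩ := hC ε hε hε1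
  have hsmall : ∀ n : ℕ, n ≤ 2 * 2 ^ (Lw (2 * K) k * (2 * K)) + Lw (2 * K) k →
      (n : ℝ) ≤ C * (1 / ε) ^ C := by
    intro n hn
    refine le_trans ?_ hk2
    exact_mod_cast hn
  constructor
  · intro P _ _ _ hP hb
    obtain ⟨S, i1, i2, h1, h2, h3, h4⟩ := exists_indec (fun P _ => InD P)
      (fun P _ A hA _ _ ha hb => InD.sum _ _ P ha hb ⟨splitIso A hA⟩) _ P rfl hP
    by_cases hS : Lw (2 * K) k ≤ Fintype.card S
    · obtain ⟨m, s, hQ, g1, g2, g3, g4⟩ := core hK1 S (hK S (by linarith)) h3 k hS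
      have hm4 : 4 ≤ m := by
        unfold Lw at g1
        omega
      refine ⟨Wd hQ, inferInstance, inferInstance, ⟨Wd.mk hQ 0 (by omega)⟩,
        notInD_of_noCut hQ hm4 g3, ?_, by linarith⟩
      rw [Wd.card]
      exact hsmall m g2
    · exact ⟨S, i1, i2, h1, h2, hsmall _ (by omega), by linarith⟩
  · intro P _ _ hP hb
    have hne : Nonempty P := ⟨hP.choose⟩
    obtain ⟨S, i1, i2, h1, h2, h3, h4⟩ := exists_indec
      (fun P _ => ∀ x y : P, x ≤ y ∨ y ≤ x)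
      (fun P _ A hA _ _ ha hb x y => by
        by_cases hx : x ∈ A
        · by_cases hy : y ∈ A
          · exact ha ⟨x, hx⟩ ⟨y, hy⟩
          · exact Or.inl (hA x hx y hy).le
        · by_cases hy : y ∈ A
          · exact Or.inr (hA y hy x hx).le
          · exact hb ⟨x, hx⟩ ⟨y, hy⟩) _ P rfl (by
        obtain ⟨x, y, h1, h2⟩ := hP
        intro h
        rcases h x y with h3 | h3
        · exact h1 h3
        · exact h2 h3)
    by_cases hS : Lw (2 * K) k ≤ Fintype.card S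
    · obtain ⟨m, s, hQ, g1, g2, g3, g4⟩ := core hK1 S (hK S (by linarith)) h3 k hS
      have hm4 : 4 ≤ m := by
        unfold Lw at g1
        omega
      refine ⟨Wd hQ, inferInstance, inferInstance, notChain_of_noCut hQ (by omega) g3, ?_,
        by linarith⟩
      rw [Wd.card]
      exact hsmall m g2
    · refine ⟨S, i1, i2, ?_, hsmall _ (by omega), by linarith⟩
      by_contra hcon
      push Not at hcon
      refine h2 fun x y => ?_
      by_cases hxy : x ≤ y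
      · exact Or.inl hxy
      · exact Or.inr (hcon x y hxy)

end Pool.Agent.X65.Loc
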