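import Pool.Agent.X65.Loc.Code

/-!
Shortening a poset without changing its local structure.
-/

set_option autoImplicit false
set_option linter.unusedSectionVars false

open Finset

namespace Pool.Agent.X65.Loc

/-- the windows of length `L` at `a` and `b` are equal -/
def Same (L a : ℕ) (s : ℕ → ℕ → Prop) (b : ℕ) (r : ℕ → ℕ → Prop) : Prop :=
  ∀ i j, i < j → j < L → (s (a + i) (a + j) ↔ r (b + i) (b + j))

lemma Same.rfl' {L a : ℕ} {s : ℕ → ℕ → Prop} : Same L a s a s := fun _ _ _ _ => Iff.rfl

lemma Same.trans {L a b c : ℕ} {s r t : ℕ → ℕ → Prop} (h : Same L a s b r) (h' : Same L b r c t) :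
    Same L a s c t := fun i j hij hj => (h i j hij hj).trans (h' i j hij hj)

/-- all windows of `s` are windows of `r` -/
structure Sub (L m : ℕ) (s : ℕ → ℕ → Prop) (n : ℕ) (r : ℕ → ℕ → Prop) : Prop where
  hm : L ≤ m
  hn : L ≤ n
  first : Same L 0 s 0 r
  last : Same L (m - L) s (n - L) r
  all : ∀ a, a + L ≤ m → ∃ b, b + L ≤ n ∧ Same L a s b r

lemma Sub.refl {L m : ℕ} {s : ℕ → ℕ → Prop} (h : L ≤ m) : Sub L m s m s :=
  ⟨h, h, Same.rfl', Same.rfl', fun a ha => ⟨a, ha, Same.rfl'⟩⟩

lemma Sub.trans {L m n p : ℕ} {s r t : ℕ → ℕ → Prop} (h : Sub L m s n r) (h' : Sub L n r p t) :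
    Sub L m s p t :=
  ⟨h.hm, h'.hn, h.first.trans h'.first, h.last.trans h'.last, fun a ha => by
    obtain ⟨b, hb, h1⟩ := h.all a ha
    obtain ⟨c, hc, h2⟩ := h'.all b hb
    exact ⟨c, hc, h1.trans h2⟩⟩

/-- removing the part between two equal windows -/
def glue (i L g : ℕ) (r : ℕ → ℕ → Prop) : ℕ → ℕ → Prop := fun x y =>
  (y < i + L ∧ r x y) ∨ (i + L ≤ y ∧ i ≤ x ∧ r (x + g) (y + g)) ∨ (i + L ≤ y ∧ x < i)

section Glue

variable {M n i i' L : ℕ} {r : ℕ → ℕ → Prop}

lemma glue_before {g x y : ℕ} (hy : y < i + L) : glue i L g r x y ↔ r x y := by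
  unfold glue
  constructor
  · rintro (⟨-, h⟩ | ⟨h, -⟩ | ⟨h, -⟩)
    · exact h
    · omega
    · omega
  · exact fun h => Or.inl ⟨hy, h⟩

lemma glue_after (hii : i < i') (hsame : Same L i r i' r) {x y : ℕ} (hx : i ≤ x) (hxy : x < y) :
    glue i L (i' - i) r x y ↔ r (x + (i' - i)) (y + (i' - i)) := by
  rcases lt_or_ge y (i + L) with hy | hy
  · rw [glue_before hy]
    have h1 := hsame (x - i) (y - i) (by omega) (by omega)
    have e1 : i + (x - i) = x := by omega
    have e2 : i + (y - i) = y := by omega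
    have e3 : i' + (x - i) = x + (i' - i) := by omega
    have e4 : i' + (y - i) = y + (i' - i) := by omega
    rw [e1, e2, e3, e4] at h1
    exact h1
  · unfold glue
    constructor
    · rintro (⟨h, -⟩ | ⟨-, -, h⟩ | ⟨-, h⟩)
      · omega
      · exact h
      · omega
    · exact fun h => Or.inr (Or.inl ⟨hy, hx, h⟩)

lemma glue_far {g x y : ℕ} (hx : x < i) (hy : i + L ≤ y) : glue i L g r x y :=
  Or.inr (Or.inr ⟨hy, hx⟩)

lemma glue_lt (h : Good M n r) {g x y : ℕ} (hxy : glue i L g r x y) : x < y := by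
  rcases hxy with ⟨-, h1⟩ | ⟨-, -, h1⟩ | ⟨h1, h2⟩
  · exact h.lt _ _ h1
  · have := h.lt _ _ h1
    omega
  · omega

lemma glue_good (h : Good M n r) (hii : i < i') (hi' : i' + L ≤ n) (hsame : Same L i r i' r) :
    Good M (n - (i' - i)) (glue i L (i' - i) r) where
  lt x y hxy := glue_lt h hxy
  trans x y z hz h1 h2 := by
    have l1 := glue_lt h h1
    have l2 := glue_lt h h2
    rcases lt_or_ge z (i + L) with hz' | hz'
    · rw [glue_before hz'] at h2 ⊢
      rw [glue_before (by omega)] at h1
      exact h.trans _ _ _ (by omega) h1 h2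
    · rcases lt_or_ge x i with hx | hx
      · exact glue_far hx hz'
      · rw [glue_after hii hsame hx l1] at h1
        rw [glue_after hii hsame (by omega) l2] at h2
        rw [glue_after hii hsame hx (by omega)]
        exact h.trans _ _ _ (by omega) h1 h2
  far x y hy hxy := by
    rcases lt_or_ge y (i + L) with hy' | hy'
    · rw [glue_before hy']
      exact h.far _ _ (by omega) hxy
    · rcases lt_or_ge x i with hx | hx
      · exact glue_far hx hy'
      · have h1 : r (x + (i' - i)) (y + (i' - i)) := h.far _ _ (by omega) (by omega)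
        exact Or.inr (Or.inl ⟨hy', hx, h1⟩)

lemma glue_same_before {a g : ℕ} (ha : a ≤ i) : Same L a (glue i L g r) a r := by
  intro x y _ hy
  exact glue_before (by omega)

lemma glue_same_after (hii : i < i') (hsame : Same L i r i' r) {a : ℕ} (ha : i ≤ a) :
    Same L a (glue i L (i' - i) r) (a + (i' - i)) r := by
  intro x y hxy hy
  rw [glue_after hii hsame (by omega) (by omega)]
  have e1 : a + x + (i' - i) = a + (i' - i) + x := by omega
  have e2 : a + y + (i' - i) = a + (i' - i) + y := by omega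
  rw [e1, e2]

lemma glue_sub (hii : i < i') (hi' : i' + L ≤ n) (hsame : Same L i r i' r) :
    Sub L (n - (i' - i)) (glue i L (i' - i) r) n r where
  hm := by omega
  hn := by omega
  first := glue_same_before (Nat.zero_le _)
  last := by
    have h1 := glue_same_after (r := r) hii hsame (a := n - (i' - i) - L) (by omega)
    have e1 : n - (i' - i) - L + (i' - i) = n - L := by omega
    rw [e1] at h1
    exact h1
  all a ha := by
    rcases le_total a i with h1 | h1
    · exact ⟨a, by omega, glue_same_before h1⟩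
    · exact ⟨a + (i' - i), by omega, glue_same_after hii hsame h1⟩

end Glue

open scoped Classical in
/-- equal windows exist -/
lemma pigeon {M n L : ℕ} {r : ℕ → ℕ → Prop} (h : Good M n r) (c : ℕ)
    (hc : c + 2 ^ (L * M) + L ≤ n) :
    ∃ i i', c ≤ i ∧ i < i' ∧ i' ≤ c + 2 ^ (L * M) ∧ Same L i r i' r := by
  let f : Fin (2 ^ (L * M) + 1) → (Fin L × Fin M → Bool) := fun t p =>
    decide (r (c + t + p.1) (c + t + p.1 + 1 + p.2))
  have hcard : Fintype.card (Fin L × Fin M → Bool) < Fintype.card (Fin (2 ^ (L * M) + 1)) := by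
    rw [Fintype.card_fun, Fintype.card_bool, Fintype.card_prod, Fintype.card_fin,
      Fintype.card_fin, Fintype.card_fin]
    exact Nat.lt_succ_self _
  obtain ⟨t, t', hne, hf⟩ := Fintype.exists_ne_map_eq_of_card_lt f hcard
  have key : ∀ t t' : Fin (2 ^ (L * M) + 1), f t = f t' → Same L (c + t) r (c + t') r := by
    intro t t' hf x y hxy hy
    have ht := t.2
    have ht' := t'.2
    rcases lt_or_ge (y - (x + 1)) M with hd | hd
    · have h1 := congrFun hf (⟨x, by omega⟩, ⟨y - (x + 1), hd⟩)
      have h2 : (r (c + t + x) (c + t + x + 1 + (y - (x + 1)))) ↔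
          (r (c + t' + x) (c + t' + x + 1 + (y - (x + 1)))) := by
        simpa [f] using h1
      have e1 : c + (t : ℕ) + x + 1 + (y - (x + 1)) = c + t + y := by omega
      have e2 : c + (t' : ℕ) + x + 1 + (y - (x + 1)) = c + t' + y := by omega
      rw [e1, e2] at h2
      exact h2
    · exact ⟨fun _ => h.far _ _ (by omega) (by omega), fun _ => h.far _ _ (by omega) (by omega)⟩
  rcases lt_or_gt_of_ne hne with h1 | h1
  · exact ⟨c + t, c + t', by omega, by have := Fin.lt_def.1 h1; omega, by have := t'.2; omega,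
      key t t' hf⟩
  · exact ⟨c + t', c + t, by omega, by have := Fin.lt_def.1 h1; omega, by have := t.2; omega,
      key t' t hf.symm⟩

/-- **Shortening**, keeping a marked window. -/
theorem shorten {M L : ℕ} (n : ℕ) : ∀ (r : ℕ → ℕ → Prop) (p : ℕ), Good M n r → p + L ≤ n →
    ∃ (m : ℕ) (s : ℕ → ℕ → Prop) (q : ℕ), Good M m s ∧ Sub L m s n r ∧ q + L ≤ m ∧
      Same L q s p r ∧ m ≤ 2 * 2 ^ (L * M) + L ∧ m ≤ n := by
  induction n using Nat.strong_induction_on with
  | _ n ih =>
    intro r p h hp
    by_cases h1 : 2 ^ (L * M) ≤ p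
    · obtain ⟨i, i', -, hii, hi', hsame⟩ := pigeon (L := L) h 0 (by omega)
      have hn : i' + L ≤ n := by omega
      obtain ⟨m, s, q, g1, g2, g3, g4, g5, g6⟩ := ih (n - (i' - i)) (by omega)
        (glue i L (i' - i) r) (p - (i' - i)) (glue_good h hii hn hsame) (by omega)
      refine ⟨m, s, q, g1, g2.trans (glue_sub hii hn hsame), g3, g4.trans ?_, g5, by omega⟩
      have h2 := glue_same_after (r := r) hii hsame (a := p - (i' - i)) (by omega)
      have e1 : p - (i' - i) + (i' - i) = p := by omega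
      rw [e1] at h2
      exact h2
    · by_cases h2 : p + 2 ^ (L * M) + L ≤ n
      · obtain ⟨i, i', hpi, hii, hi', hsame⟩ := pigeon (L := L) h p h2
        have hn : i' + L ≤ n := by omega
        obtain ⟨m, s, q, g1, g2, g3, g4, g5, g6⟩ := ih (n - (i' - i)) (by omega)
          (glue i L (i' - i) r) p (glue_good h hii hn hsame) (by omega)
        exact ⟨m, s, q, g1, g2.trans (glue_sub hii hn hsame), g3,
          g4.trans (glue_same_before hpi), g5, by omega⟩
      · exact ⟨n, r, p, h, Sub.refl (by omega), hp, Same.rfl', by omega, le_rfl⟩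

end Pool.Agent.X65.Loc
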