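import Pool.Agent.X65.Loc.Final
import Pool.Agent.TH447.KL.Inc

/-!
The finite reduction for posets of given width.
-/

set_option autoImplicit false
set_option linter.unusedSectionVars false

open Finset

namespace Pool.Agent.X65.Loc

open Pool.Agent.H13R3.WB Pool.Agent.X65.Pos
open Pool.Agent.H931R3.Bal (HasWidth)
open Pool.Agent.TH447.KL (dAll)

/-- an antichain as a set of numbers -/
def Anti (n : ℕ) (r : ℕ → ℕ → Prop) (t : Finset ℕ) : Prop :=
  (∀ i ∈ t, i < n) ∧ ∀ i ∈ t, ∀ j ∈ t, i < j → ¬ r i j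

section AntiCode

variable {M n : ℕ} {r : ℕ → ℕ → Prop}

lemma anti_of (h : Good M n r) (s : Finset (Wd h)) (hs : IsAntichain (· ≤ ·) (s : Set (Wd h))) :
    ∃ t : Finset ℕ, Anti n r t ∧ t.card = s.card := by
  classical
  refine ⟨s.image Wd.val, ⟨?_, ?_⟩, card_image_of_injective _ fun x y hxy => Wd.ext hxy⟩
  · intro i hi
    obtain ⟨x, -, rfl⟩ := mem_image.1 hi
    exact x.val_lt
  · intro i hi j hj hij hr
    obtain ⟨x, hx, rfl⟩ := mem_image.1 hi
    obtain ⟨y, hy, rfl⟩ := mem_image.1 hj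
    have hne : x ≠ y := by
      rintro rfl
      exact lt_irrefl _ hij
    exact hs hx hy hne (Or.inr hr)

lemma of_anti (h : Good M n r) (t : Finset ℕ) (ht : Anti n r t) :
    ∃ s : Finset (Wd h), IsAntichain (· ≤ ·) (s : Set (Wd h)) ∧ s.card = t.card := by
  classical
  refine ⟨t.attach.image fun i => Wd.mk h i.1 (ht.1 i.1 i.2), ?_, ?_⟩
  · intro x hx y hy hne hle
    obtain ⟨i, -, rfl⟩ := mem_image.1 (mem_coe.1 hx)
    obtain ⟨j, -, rfl⟩ := mem_image.1 (mem_coe.1 hy)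
    rcases hle with h1 | h1
    · exact hne h1
    · exact ht.2 i.1 i.2 j.1 j.2 (h.lt _ _ h1) h1
  · rw [card_image_of_injective, card_attach]
    intro i j hij
    have := congrArg Wd.val hij
    exact Subtype.ext this

/-- an antichain lies in a window -/
lemma anti_window (h : Good M n r) (hM : 1 ≤ M) {L : ℕ} (hL : M ≤ L) (hn : L ≤ n) (t : Finset ℕ)
    (ht : Anti n r t) : ∃ p, p + L ≤ n ∧ ∀ i ∈ t, p ≤ i ∧ i < p + L := by
  rcases t.eq_empty_or_nonempty with rfl | hne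
  · exact ⟨0, by omega, fun i hi => absurd hi (notMem_empty i)⟩
  set a := t.min' hne with ha
  have hat : a ∈ t := t.min'_mem hne
  have han := ht.1 a hat
  have hclose : ∀ i ∈ t, a ≤ i ∧ i < a + M := by
    intro i hi
    have h1 : a ≤ i := t.min'_le i hi
    refine ⟨h1, ?_⟩
    by_contra hcon
    rw [not_lt] at hcon
    exact ht.2 a hat i hi (by omega) (h.far a i (ht.1 i hi) hcon)
  refine ⟨min a (n - L), by omega, fun i hi => ?_⟩
  have h1 := hclose i hi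
  have h2 := ht.1 i hi
  omega

lemma anti_transport {m L p q : ℕ} {s : ℕ → ℕ → Prop} (hq : q + L ≤ m) (hsame : Same L q s p r)
    (t : Finset ℕ) (ht : Anti n r t) (hp : ∀ i ∈ t, p ≤ i ∧ i < p + L) :
    ∃ t' : Finset ℕ, Anti m s t' ∧ t'.card = t.card := by
  classical
  refine ⟨t.image fun i => i - p + q, ⟨?_, ?_⟩, card_image_of_injOn ?_⟩
  · intro i hi
    obtain ⟨x, hx, rfl⟩ := mem_image.1 hi
    have := hp x hx
    omega
  · intro i hi j hj hij hr
    obtain ⟨x, hx, rfl⟩ := mem_image.1 hi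
    obtain ⟨y, hy, rfl⟩ := mem_image.1 hj
    have h1 := hp x hx
    have h2 := hp y hy
    have h3 := hsame (x - p) (y - p) (by omega) (by omega)
    have e1 : q + (x - p) = x - p + q := by omega
    have e2 : q + (y - p) = y - p + q := by omega
    have e3 : p + (x - p) = x := by omega
    have e4 : p + (y - p) = y := by omega
    rw [e1, e2, e3, e4] at h3
    exact ht.2 x hx y hy (by omega) (h3.1 hr)
  · intro x hx y hy hxy
    have h1 := hp x (mem_coe.1 hx)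
    have h2 := hp y (mem_coe.1 hy)
    simp only at hxy
    omega

end AntiCode

lemma Same.symm {L a b : ℕ} {s r : ℕ → ℕ → Prop} (h : Same L a s b r) : Same L b r a s :=
  fun i j hij hj => (h i j hij hj).symm

lemma hasWidth_iso {P Q : Type} [PartialOrder P] [PartialOrder Q] (e : P ≃o Q) {w : ℕ}
    (h : HasWidth P w) : HasWidth Q w := by
  classical
  obtain ⟨⟨s, hs, hc⟩, h2⟩ := h
  constructor
  · refine ⟨s.map e.toEquiv.toEmbedding, ?_, by rw [card_map, hc]⟩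
    intro x hx y hy hne hle
    obtain ⟨a, ha, rfl⟩ := mem_map.1 (mem_coe.1 hx)
    obtain ⟨b, hb, rfl⟩ := mem_map.1 (mem_coe.1 hy)
    refine hs ha hb (fun hab => hne (by rw [hab])) ?_
    exact e.le_iff_le.1 hle
  · intro t ht
    have h3 := h2 (t.map e.symm.toEquiv.toEmbedding) ?_
    · rwa [card_map] at h3
    · intro x hx y hy hne hle
      obtain ⟨a, ha, rfl⟩ := mem_map.1 (mem_coe.1 hx)
      obtain ⟨b, hb, rfl⟩ := mem_map.1 (mem_coe.1 hy)
      refine ht ha hb (fun hab => hne (by rw [hab])) ?_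
      exact e.symm.le_iff_le.1 hle

theorem core_width {K w : ℕ} (hK1 : 1 ≤ K) (S : Type) [Fintype S] [PartialOrder S]
    (hw : HasWidth S w) (hK : ∀ x : S, inc x ≤ K) (k : ℕ)
    (hS : Lw (2 * K) k ≤ Fintype.card S) :
    ∃ (m : ℕ) (s : ℕ → ℕ → Prop) (hQ : Good (2 * K) m s), Lw (2 * K) k ≤ m ∧
      m ≤ 2 * 2 ^ (Lw (2 * K) k * (2 * K)) + Lw (2 * K) k ∧ HasWidth (Wd hQ) w ∧
      balance (Wd hQ) ≤ balance S + 4 * dec (2 * K) ^ k := by
  obtain ⟨f, hf⟩ := exists_label S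
  have hP := lab_good hK1 hK f hf
  have e := labIso hK1 hK f hf
  have hwP : HasWidth (Wd hP) w := hasWidth_iso e hw
  have hML : 2 * K ≤ Lw (2 * K) k := by
    unfold Lw
    omega
  obtain ⟨⟨s₀, hs₀, hc₀⟩, hmax⟩ := hwP
  obtain ⟨t₀, ht₀, htc₀⟩ := anti_of hP s₀ hs₀
  obtain ⟨p, hp1, hp2⟩ := anti_window hP (by omega) hML hS t₀ ht₀
  obtain ⟨m, s, q, g1, g2, g3, g4, g5, -⟩ := shorten (L := Lw (2 * K) k) (Fintype.card S) (lab f) p
    hP hp1
  refine ⟨m, s, g1, g2.hm, g5, ⟨?_, ?_⟩, ?_⟩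
  · obtain ⟨t', ht', hc'⟩ := anti_transport g3 g4 t₀ ht₀ hp2
    obtain ⟨s', hs', hsc'⟩ := of_anti g1 t' ht'
    exact ⟨s', hs', by omega⟩
  · intro s' hs'
    obtain ⟨t', ht', hc'⟩ := anti_of g1 s' hs'
    obtain ⟨a, ha1, ha2⟩ := anti_window g1 (by omega) hML g2.hm t' ht'
    obtain ⟨b, hb, hsame⟩ := g2.all a ha1
    obtain ⟨t'', ht'', hc''⟩ := anti_transport hb hsame.symm t' ht' ha2
    obtain ⟨s'', hs'', hsc''⟩ := of_anti hP t'' ht''
    have := hmax s'' hs''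
    omega
  · rw [balance_iso e]
    exact sub_balance hP g1 g2 k le_rfl

/-- **The finite reduction for posets of width `w`.** -/
theorem reduction_width (w : ℕ) (hw : 1 ≤ w) : ∃ C : ℕ, 3 * w ≤ C ∧
    ∀ ε : ℝ, 0 < ε → ε ≤ 1 →
    ∀ (P : Type) [Fintype P] [PartialOrder P], HasWidth P w →
      ∃ (Q : Type) (_ : Fintype Q) (_ : PartialOrder Q), HasWidth Q w ∧
        (Fintype.card Q : ℝ) ≤ C * (1 / ε) ^ C ∧ balance Q ≤ balance P + ε := by
  have hw' : (1 : ℝ) ≤ w := by exact_mod_cast hw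
  set η : ℝ := 1 / (12 * (w : ℝ) - 8) with hηd
  have hη : 0 < η := by
    rw [hηd]
    apply one_div_pos.2
    linarith
  have hη2 : η ≤ 1 / 2 := by
    rw [hηd]
    apply one_div_le_one_div_of_le (by norm_num)
    linarith
  obtain ⟨K, hK1, hK⟩ := thin_of_balance η hη hη2
  obtain ⟨C, hC1, hC⟩ := size_bound (2 * K) (by omega)
  refine ⟨max C (3 * w), le_max_right _ _, fun ε hε hε1 => ?_⟩
  obtain ⟨k, hk1, hk2⟩ := hC ε hε hε1
  have h1ε : (1 : ℝ) ≤ 1 / ε := by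
    rw [le_div_iff₀ hε]
    linarith
  have hCC : (C : ℝ) * (1 / ε) ^ C ≤ ((max C (3 * w) : ℕ) : ℝ) * (1 / ε) ^ max C (3 * w) := by
    refine mul_le_mul ?_ (pow_le_pow_right₀ h1ε (le_max_left _ _)) (by positivity) (by positivity)
    exact_mod_cast le_max_left _ _
  have hsmall : ∀ n : ℕ, n ≤ 2 * 2 ^ (Lw (2 * K) k * (2 * K)) + Lw (2 * K) k →
      (n : ℝ) ≤ ((max C (3 * w) : ℕ) : ℝ) * (1 / ε) ^ max C (3 * w) := by
    intro n hn
    refine le_trans (le_trans ?_ hk2) hCC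
    exact_mod_cast hn
  intro P _ _ hP
  by_cases hb : balance P < 1 / 2 - η
  · by_cases hS : Lw (2 * K) k ≤ Fintype.card P
    · obtain ⟨m, s, hQ, g1, g2, g3, g4⟩ := core_width hK1 P hP (hK P hb) k hS
      refine ⟨Wd hQ, inferInstance, inferInstance, g3, ?_, by linarith⟩
      rw [Wd.card]
      exact hsmall m g2
    · exact ⟨P, inferInstance, inferInstance, hP, hsmall _ (by omega), by linarith⟩
  · obtain ⟨Q, i1, i2, h1, h2, h3⟩ := Pool.Agent.TH447.KL.exists_few w hw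
    refine ⟨Q, i1, i2, h1, ?_, by linarith⟩
    have h4 : (Fintype.card Q : ℝ) ≤ ((max C (3 * w) : ℕ) : ℝ) := by
      exact_mod_cast h2.trans (le_max_right _ _)
    refine h4.trans (le_mul_of_one_le_right (by positivity) (one_le_pow₀ h1ε))

/-- a common constant for all widths up to `W` -/
theorem reduction_widths (W : ℕ) : ∃ C : ℕ, 1 ≤ C ∧ 3 * W ≤ C ∧ ∀ w : ℕ, 1 ≤ w → w ≤ W →
    ∀ ε : ℝ, 0 < ε → ε ≤ 1 →
    ∀ (P : Type) [Fintype P] [PartialOrder P], HasWidth P w →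
      ∃ (Q : Type) (_ : Fintype Q) (_ : PartialOrder Q), HasWidth Q w ∧
        (Fintype.card Q : ℝ) ≤ C * (1 / ε) ^ C ∧ balance Q ≤ balance P + ε := by
  induction W with
  | zero => exact ⟨1, le_rfl, by omega, fun w h1 h2 => by omega⟩
  | succ W ih =>
    obtain ⟨C₁, h1, h2, h3⟩ := ih
    obtain ⟨C₂, h4, h5⟩ := reduction_width (W + 1) (by omega)
    refine ⟨max C₁ C₂, h1.trans (le_max_left _ _), h4.trans (le_max_right _ _), ?_⟩
    intro w hw1 hwW ε hε hε1 P _ _ hP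
    have h1ε : (1 : ℝ) ≤ 1 / ε := by
      rw [le_div_iff₀ hε]
      linarith
    have hmono : ∀ C : ℕ, C ≤ max C₁ C₂ →
        (C : ℝ) * (1 / ε) ^ C ≤ ((max C₁ C₂ : ℕ) : ℝ) * (1 / ε) ^ max C₁ C₂ := by
      intro C hC
      refine mul_le_mul ?_ (pow_le_pow_right₀ h1ε hC) (by positivity) (by positivity)
      exact_mod_cast hC
    rcases Nat.lt_or_ge w (W + 1) with h | h
    · obtain ⟨Q, i1, i2, g1, g2, g3⟩ := h3 w hw1 (by omega) ε hε hε1 P hP
      exact ⟨Q, i1, i2, g1, g2.trans (hmono _ (le_max_left _ _)), g3⟩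
    · have hw : w = W + 1 := by omega
      subst hw
      obtain ⟨Q, i1, i2, g1, g2, g3⟩ := h5 ε hε hε1 P hP
      exact ⟨Q, i1, i2, g1, g2.trans (hmono _ (le_max_right _ _)), g3⟩

/-- infimum of the balance constants of the posets of width `w` with at most `N` elements -/
noncomputable def dAllN (w N : ℕ) : ℝ :=
  sInf {d : ℝ | ∃ (P : Type) (_ : Fintype P) (_ : PartialOrder P), HasWidth P w ∧
    Fintype.card P ≤ N ∧ balance P = d}

lemma bdd_dAll (w : ℕ) : BddBelow {d : ℝ | ∃ (P : Type) (_ : Fintype P) (_ : PartialOrder P),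
    HasWidth P w ∧ balance P = d} := by
  refine ⟨0, ?_⟩
  rintro d ⟨P, i1, i2, -, rfl⟩
  exact balance_nonneg

lemma bdd_dAllN (w N : ℕ) : BddBelow {d : ℝ | ∃ (P : Type) (_ : Fintype P) (_ : PartialOrder P),
    HasWidth P w ∧ Fintype.card P ≤ N ∧ balance P = d} := by
  refine ⟨0, ?_⟩
  rintro d ⟨P, i1, i2, -, -, rfl⟩
  exact balance_nonneg

lemma dAll_le_dAllN {w N : ℕ} (hw : 1 ≤ w) (hN : 3 * w ≤ N) : dAll w ≤ dAllN w N := by
  unfold dAll dAllN
  refine csInf_le_csInf (bdd_dAll w) ?_ ?_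
  · obtain ⟨P, i1, i2, h1, h2, -⟩ := Pool.Agent.TH447.KL.exists_few w hw
    exact ⟨_, P, i1, i2, h1, h2.trans hN, rfl⟩
  · rintro d ⟨P, i1, i2, h1, -, h2⟩
    exact ⟨P, i1, i2, h1, h2⟩

/-- **`δ_w` is given by the posets with at most `N` elements up to a power of `N`.** -/
theorem approx_widths (W : ℕ) : ∃ C : ℕ, 1 ≤ C ∧
    (∀ w : ℕ, 1 ≤ w → w ≤ W → ∀ N : ℕ, C ≤ N →
      dAll w ≤ dAllN w N ∧ dAllN w N ≤ dAll w + ((C : ℝ) / N) ^ (1 / (C : ℝ))) ∧
    (∀ u v : ℕ, 1 ≤ u → u ≤ W → 1 ≤ v → v ≤ W →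
      (dAll u < dAll v ↔
        ∃ N : ℕ, C ≤ N ∧ dAllN u N + ((C : ℝ) / N) ^ (1 / (C : ℝ)) < dAllN v N)) := by
  obtain ⟨C, hC1, hCW, H⟩ := reduction_widths W
  have main : ∀ w : ℕ, 1 ≤ w → w ≤ W → ∀ N : ℕ, C ≤ N →
      dAll w ≤ dAllN w N ∧ dAllN w N ≤ dAll w + ((C : ℝ) / N) ^ (1 / (C : ℝ)) := by
    intro w hw1 hwW N hN
    refine ⟨dAll_le_dAllN hw1 (by omega), ?_⟩
    obtain ⟨e1, e2, e3⟩ := eps_facts hC1 hN
    rw [← sub_le_iff_le_add]
    unfold dAll
    refine le_csInf ?_ ?_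
    · obtain ⟨P, i1, i2, h1, h2, -⟩ := Pool.Agent.TH447.KL.exists_few w hw1
      exact ⟨_, P, i1, i2, h1, rfl⟩
    · rintro d ⟨P, i1, i2, h1, rfl⟩
      obtain ⟨Q, j1, j2, g1, g2, g3⟩ := H w hw1 hwW _ e1 e2 P h1
      rw [e3] at g2
      have h2 : dAllN w N ≤ balance Q :=
        csInf_le (bdd_dAllN w N) ⟨Q, j1, j2, g1, by exact_mod_cast g2, rfl⟩
      linarith
  refine ⟨C, hC1, main, fun u v hu1 huW hv1 hvW => ⟨fun h => ?_, ?_⟩⟩
  · -- a large `N`
    set g : ℝ := dAll v - dAll u with hg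
    have hg0 : 0 < g := by linarith
    have hC0 : (0 : ℝ) < C := by exact_mod_cast hC1
    set N : ℕ := max C ⌈(C : ℝ) * (3 / g) ^ C⌉₊ with hN
    have h1 : (C : ℝ) * (3 / g) ^ C ≤ N :=
      (Nat.le_ceil _).trans (by exact_mod_cast le_max_right _ _)
    have hN0 : (0 : ℝ) < N := lt_of_lt_of_le (by positivity) h1
    have h2 : (C : ℝ) / N ≤ (g / 3) ^ C := by
      rw [div_le_iff₀ hN0]
      have h3 : (g / 3) ^ C * ((C : ℝ) * (3 / g) ^ C) = C := by
        have h4 : (g / 3) ^ C * (3 / g) ^ C = 1 := by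
          rw [← mul_pow]
          have h5 : g / 3 * (3 / g) = 1 := by field_simp
          rw [h5, one_pow]
        calc (g / 3) ^ C * ((C : ℝ) * (3 / g) ^ C) = C * ((g / 3) ^ C * (3 / g) ^ C) := by ring
          _ = C := by rw [h4, mul_one]
      calc (C : ℝ) = (g / 3) ^ C * ((C : ℝ) * (3 / g) ^ C) := h3.symm
        _ ≤ (g / 3) ^ C * N := mul_le_mul_of_nonneg_left h1 (by positivity)
    have h3 : ((C : ℝ) / N) ^ (1 / (C : ℝ)) ≤ g / 3 := by
      calc ((C : ℝ) / N) ^ (1 / (C : ℝ)) ≤ ((g / 3) ^ C) ^ (1 / (C : ℝ)) :=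
            Real.rpow_le_rpow (by positivity) h2 (by positivity)
        _ = g / 3 := by
            rw [← Real.rpow_natCast, ← Real.rpow_mul (by positivity), mul_one_div_cancel hC0.ne',
              Real.rpow_one]
    refine ⟨N, le_max_left _ _, ?_⟩
    have h4 := (main u hu1 huW N (le_max_left _ _)).2
    have h5 := (main v hv1 hvW N (le_max_left _ _)).1
    linarith
  · rintro ⟨N, hN, h⟩
    have h4 := (main u hu1 huW N hN).1
    have h5 := (main v hv1 hvW N hN).2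
    linarith

end Pool.Agent.X65.Loc
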